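import Pool.Agent.H14RC.Core

/-!
# Project FM: facts about the limit function `G`

Proof sketches.
* `G_scale`: show `l * G x + l * log(1/l) * x ≤ a k (l x)` and `≤ a k (1 - l x)` for all `k` (`le_G`), `0 < l ≤ 1`, `0 ≤ x ≤ 1`.
  First: `a k (l x) = l * l^(-1/(k+1)) * a k x ≥ l * a k x + l * log(1/l) * x^(k/(k+1))` since
  `l^(-1/(k+1)) = exp(log(1/l)/(k+1)) ≥ 1 + log(1/l)/(k+1)`, and `x^(k/(k+1)) ≥ x`, `a k x ≥ G x`.
  Second: `k = 0` is `l + l log(1/l) ≤ 1` (and `G x ≤ 1`, `x ≤ 1`); for `k ≥ 1`, `1 - l x = l (1-x) + (1-l) * 1`, concavity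
  (`a_conc`) gives `a k (1 - l x) ≥ l * a k (1-x) + (1-l) * a k 1`, `a k 1 = k+1 ≥ 1 `, `(1 - l) ≥ l * log(1/l) ≥ l * log (1/l) * x`,
  `a k (1-x) ≥ G x`. (That works for `k = 0` too.)
* `G_small`: `G x ≤ a 1 x = 2 sqrt x ≤ 1/2` for `x ≤ 1/16`.
* `G_ge_log`: `exp 1 * x * log (1/x) ≤ a k x`: with `y = x^(-1/(k+1)) `: `y ≥ exp 1 * log y`; for `x ≤ 1/4` `a k (1-x) ≥ a k (1/4) ≥ 1`
  (`a_quarter`) and `exp 1 * x * log(1/x) ≤ 1`. Then `log 40 ≥ 3.68`.
-/

set_option autoImplicit false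

namespace Pool.Agent.H86.FM

open Finset Pool.Agent.H14RC

/-- `l^(k/(k+1)) ≥ l + l log(1/l)/(k+1)` -/
private lemma gf_rpow (k : ℕ) {l : ℝ} (hl0 : 0 < l) :
    l + l * Real.log (1 / l) / ((k : ℝ) + 1) ≤ l ^ ((k : ℝ) / ((k : ℝ) + 1)) := by
  have hk : (0 : ℝ) < (k : ℝ) + 1 := by positivity
  have h1 : l ^ ((k : ℝ) / ((k : ℝ) + 1)) = l * Real.exp (Real.log (1 / l) / ((k : ℝ) + 1)) := by
    rw [Real.rpow_def_of_pos hl0]
    have h2 : Real.log l * ((k : ℝ) / ((k : ℝ) + 1)) =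
        Real.log l + Real.log (1 / l) / ((k : ℝ) + 1) := by
      rw [one_div, Real.log_inv]
      field_simp
      ring
    rw [h2, Real.exp_add, Real.exp_log hl0]
  rw [h1]
  have h3 := Real.add_one_le_exp (Real.log (1 / l) / ((k : ℝ) + 1))
  calc l + l * Real.log (1 / l) / ((k : ℝ) + 1)
      = l * (Real.log (1 / l) / ((k : ℝ) + 1) + 1) := by ring
    _ ≤ _ := mul_le_mul_of_nonneg_left h3 hl0.le

private lemma gf_le_rpow (k : ℕ) {x : ℝ} (hx0 : 0 ≤ x) (hx1 : x ≤ 1) :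
    x ≤ x ^ ((k : ℝ) / ((k : ℝ) + 1)) := by
  rcases eq_or_lt_of_le hx0 with h | h
  · rw [← h]
    exact Real.rpow_nonneg le_rfl _
  · have hk : (0 : ℝ) < (k : ℝ) + 1 := by positivity
    have := Real.rpow_le_rpow_of_exponent_ge h hx1 (z := (k : ℝ) / ((k : ℝ) + 1)) (x := x)
      (y := 1) (by rw [div_le_one hk]; linarith)
    rwa [Real.rpow_one] at this

private lemma gf_first (k : ℕ) {l x : ℝ} (hl0 : 0 < l) (hl1 : l ≤ 1) (hx0 : 0 ≤ x) (hx1 : x ≤ 1) :
    l * a k x + l * Real.log (1 / l) * x ≤ a k (l * x) := by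
  have hk : (0 : ℝ) < (k : ℝ) + 1 := by positivity
  have hlog : 0 ≤ Real.log (1 / l) := by
    apply Real.log_nonneg
    rw [le_div_iff₀ hl0]
    linarith
  have h1 := gf_rpow k hl0
  have h2 := gf_le_rpow k hx0 hx1
  unfold a
  rw [Real.mul_rpow hl0.le hx0]
  set X := x ^ ((k : ℝ) / ((k : ℝ) + 1)) with hX
  have hX0 : 0 ≤ X := hx0.trans h2
  calc l * (((k : ℝ) + 1) * X) + l * Real.log (1 / l) * x
      ≤ l * (((k : ℝ) + 1) * X) + l * Real.log (1 / l) * X := by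
        have := mul_le_mul_of_nonneg_left h2 (mul_nonneg hl0.le hlog)
        linarith
    _ = ((k : ℝ) + 1) * ((l + l * Real.log (1 / l) / ((k : ℝ) + 1)) * X) := by
        field_simp
    _ ≤ _ := by
        apply mul_le_mul_of_nonneg_left _ hk.le
        exact mul_le_mul_of_nonneg_right h1 hX0

theorem G_scale {l x : ℝ} (hl0 : 0 < l) (hl1 : l ≤ 1) (hx0 : 0 ≤ x) (hx1 : x ≤ 1) :
    l * G x + l * Real.log (1 / l) * x ≤ G (l * x) := by
  have hlog : 0 ≤ Real.log (1 / l) := by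
    apply Real.log_nonneg
    rw [le_div_iff₀ hl0]
    linarith
  apply le_G
  · intro k
    have h1 := gf_first k hl0 hl1 hx0 hx1
    have h2 := mul_le_mul_of_nonneg_left (G_le k hx0 hx1) hl0.le
    linarith
  · intro k
    have h1 := a_conc k (x := 1 - x) (y := 1) (s := l) (t := 1 - l) (by linarith) zero_le_one
      hl0.le (by linarith) (by ring)
    have h2 : l * (1 - x) + (1 - l) * 1 = 1 - l * x := by ring
    rw [h2] at h1
    have h3 : 1 ≤ a k 1 := by
      unfold a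
      rw [Real.one_rpow]
      have : (0 : ℝ) ≤ k := by positivity
      linarith
    have h4 := mul_le_mul_of_nonneg_left (G_le' k hx0 hx1) hl0.le
    have h5 : l * Real.log (1 / l) ≤ 1 - l := by
      have h6 := Real.log_le_sub_one_of_pos (x := 1 / l) (by positivity)
      have h7 := mul_le_mul_of_nonneg_left h6 hl0.le
      have h8 : l * (1 / l - 1) = 1 - l := by
        field_simp
      linarith
    have h9 : l * Real.log (1 / l) * x ≤ l * Real.log (1 / l) := by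
      have := mul_le_mul_of_nonneg_left hx1 (mul_nonneg hl0.le hlog)
      linarith
    have h10 : (1 - l) * 1 ≤ (1 - l) * a k 1 := mul_le_mul_of_nonneg_left h3 (by linarith)
    linarith

theorem G_small {x : ℝ} (hx0 : 0 ≤ x) (hx1 : x ≤ 1 / 16) : G x ≤ 1 / 2 := by
  refine (G_le 1 hx0 (by linarith)).trans ((a_mono 1 hx0 hx1).trans ?_)
  have h := a_pow 1 (r := 1 / 4) (by norm_num)
  have h2 : ((1 : ℝ) / 4) ^ (1 + 1) = 1 / 16 := by norm_num
  rw [h2] at h
  rw [h]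
  norm_num

private lemma gf_ten (k : ℕ) {x : ℝ} (hx0 : 0 ≤ x) (hx1 : x ≤ 1 / 40) : 10 * x ≤ a k x := by
  obtain ⟨r, hr0, hr⟩ := exists_root k hx0
  have h1 : 10 * r ≤ (k : ℝ) + 1 := by
    by_contra hcon
    push Not at hcon
    rcases le_or_gt 9 k with hk | hk
    · have hk' : (9 : ℝ) ≤ k := by exact_mod_cast hk
      have hr1 : 1 ≤ r := by linarith
      have := one_le_pow₀ hr1 (n := k + 1)
      rw [hr] at this
      linarith
    · have h2 : (((k : ℝ) + 1) / 10) ^ (k + 1) ≤ r ^ (k + 1) :=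
        pow_le_pow_left₀ (by positivity) (by linarith) _
      rw [hr] at h2
      have h3 : (1 : ℝ) / 40 < (((k : ℝ) + 1) / 10) ^ (k + 1) := by
        interval_cases k <;> norm_num
      linarith
  rw [← hr, a_pow k hr0, pow_succ]
  have h4 : 0 ≤ r ^ k := by positivity
  nlinarith [mul_le_mul_of_nonneg_right h1 h4]

theorem G_ge_ten {x : ℝ} (hx0 : 0 ≤ x) (hx1 : x ≤ 1 / 40) : 10 * x ≤ G x := by
  apply le_G
  · intro k
    exact gf_ten k hx0 hx1
  · intro k
    have h1 := (a_quarter k).trans (a_mono k (y := 1 - x) (by norm_num) (by linarith))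
    linarith

end Pool.Agent.H86.FM
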