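import Pool.Agent.H86.FM.Iter

/-!
# Project FM: relaxed convexity of the periodic extension on the real line, with the gain at the integers

Proof sketch of `Ft_tuple`: shift the tuple by `-n` (periodicity), now the mean is in `[0,1]`; apply `carry` to `Ft m`
(`Ft_isSub`) and then `F_tuple` with the bounds `max 0 lo`, `min 1 hi`; on `[0,1]` `Ft = F`.
-/

set_option autoImplicit false

namespace Pool.Agent.H86.FM

open Finset Pool.Agent.H14RC

theorem Ft_tuple {m : ℕ} (hm : 2 ≤ m) (z : Fin m → ℝ) {lo hi : ℝ} (hz : ∀ i, lo ≤ z i ∧ z i ≤ hi)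
    (n : ℤ) (h0 : (n : ℝ) ≤ (∑ i, z i) / m) (h1 : (∑ i, z i) / m ≤ n + 1) :
    Ft m ((∑ i, z i) / m) ≤ (∑ i, Ft m (z i)) / m + (min ((n : ℝ) + 1) hi - max (n : ℝ) lo) := by
  have hmR : (0 : ℝ) < m := by
    have : 0 < m := by omega
    exact_mod_cast this
  have hsum : ∑ i, (z i - n) = ∑ i, z i - m * n := by
    rw [Finset.sum_sub_distrib, Finset.sum_const, Finset.card_univ, Fintype.card_fin, nsmul_eq_mul]
  have h0' : (n : ℝ) * m ≤ ∑ i, z i := (le_div_iff₀ hmR).mp h0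
  have h1' : ∑ i, z i ≤ ((n : ℝ) + 1) * m := (div_le_iff₀ hmR).mp h1
  obtain ⟨w, hw1, hw2, hw3⟩ := carry (Ft_isSub hm) (m := m) (by omega) (fun i => z i - n)
    (lo := lo - n) (hi := hi - n)
    (fun i => ⟨by linarith [(hz i).1], by linarith [(hz i).2]⟩)
    (by rw [hsum]; linarith) (by rw [hsum]; linarith)
  have hper : ∀ x : ℝ, Ft m (x - n) = Ft m x := by
    intro x
    have h := Ft_add_int m (x - n) n
    rw [sub_add_cancel] at h
    exact h.symm
  have hw3' : ∑ i, Ft m (w i) ≤ ∑ i, Ft m (z i) := by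
    refine hw3.trans (le_of_eq ?_)
    exact Finset.sum_congr rfl fun i _ => hper (z i)
  have hw01 : ∀ i, 0 ≤ w i ∧ w i ≤ 1 := fun i =>
    ⟨(le_max_left _ _).trans (hw1 i).1, (hw1 i).2.trans (min_le_left _ _)⟩
  have hFt : F m ((∑ i, w i) / m) ≤ (∑ i, F m (w i)) / m + (min 1 (hi - n) - max 0 (lo - n)) :=
    F_tuple hm w (le_max_left _ _) (min_le_left _ _) hw1
  have hsw : (∑ i, w i) / m = (∑ i, z i) / m - n := by
    rw [hw2, hsum, sub_div, mul_div_cancel_left₀ _ hmR.ne']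
  have hFw : ∑ i, F m (w i) = ∑ i, Ft m (w i) :=
    Finset.sum_congr rfl fun i _ => (Ft_of_mem hm (hw01 i).1 (hw01 i).2).symm
  have hmean : F m ((∑ i, w i) / m) = Ft m ((∑ i, z i) / m) := by
    rw [hsw, ← Ft_of_mem hm (by linarith) (by linarith), hper]
  rw [hmean, hFw] at hFt
  have hdiv : (∑ i, Ft m (w i)) / m ≤ (∑ i, Ft m (z i)) / m := div_le_div_of_nonneg_right hw3' hmR.le
  have e1 : min (1 : ℝ) (hi - n) = min ((n : ℝ) + 1) hi - n := by
    rw [← min_sub_sub_right]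
    congr 1
    ring
  have e2 : max (0 : ℝ) (lo - n) = max (n : ℝ) lo - n := by
    rw [← max_sub_sub_right]
    congr 1
    ring
  rw [e1, e2] at hFt
  linarith

/-- Subadditivity on `[0,1]`. -/
theorem F_add {m : ℕ} (hm : 2 ≤ m) {x y : ℝ} (hx : 0 ≤ x) (hy : 0 ≤ y) (hxy : x + y ≤ 1) :
    F m (x + y) ≤ F m x + F m y := by
  rw [← Ft_of_mem hm (add_nonneg hx hy) hxy, ← Ft_of_mem hm hx (by linarith), ← Ft_of_mem hm hy (by linarith)]
  exact (Ft_isSub hm).sub x y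

theorem F_sum {m : ℕ} (hm : 2 ≤ m) {ι : Type*} (s : Finset ι) (z : ι → ℝ) (hz : ∀ i ∈ s, 0 ≤ z i)
    (hs : ∑ i ∈ s, z i ≤ 1) : F m (∑ i ∈ s, z i) ≤ ∑ i ∈ s, F m (z i) := by
  rw [← Ft_of_mem hm (Finset.sum_nonneg hz) hs]
  refine ((Ft_isSub hm).sum s z).trans (le_of_eq ?_)
  exact Finset.sum_congr rfl fun i hi =>
    Ft_of_mem hm (hz i hi) ((Finset.single_le_sum hz hi).trans hs)

end Pool.Agent.H86.FM
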