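import Pool.Agent.H86.FM.Strict
import Pool.Agent.H86.FM.Reals

/-!
# Project FM: the group inequality

`A` is a finite set of particles of sizes `d i ≥ b ≥ 0`, `s = ∑ d i ≤ 1`.

Proof sketches. `A` is called dominated if some `i ∈ A` has `d i > (1 - 192/m) s`.
* `group_free` (not dominated, `s > 0`): add `F_scale` with `l = d i / s`, `x = s`: `∑ F (d i) ≥ F s + (1/2) ∑ d i log (s / d i)` (if `d i = 0` use `F 0 = 0`). At most one
  `i` has `d i > s/2`; for the others `d i log (s/d i) ≥ b log N`, `N = A.card`: put `t = d i/s ∈ [.., 1/2]`; if `t ≤ 1/N` then `log(1/t) ≥ log N`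
  and `d i ≥ b`; if `t ∈ [1/N, 1/2]` then `t log(1/t) ≥ (log N)/N` (concavity of `Real.negMulLog`, `ConcaveOn.min_le_of_mem_Icc`, and `(log 2)/2 ≥ (log N)/N`)
  and `s ≥ N b`. So the gain is at least `(1/2)(N-1) b log N ≥ m b` since `N ≥ m/5` and `log(m/5) ≥ 12.2`.
* `group_grow`: induction on `k`: for all `A` with `A.card ≥ m/5 + k`: `F s + m b ≤ ∑ F (d i)` or `2^k * (m/5) * b ≤ s`. Start `k = 0`: `s ≥ card * b`. Step:
  not dominated: group_free. Dominated by `i`: `A' = A.erase i` has `s' < (192/m) s ≤ s/2`; induction hypothesis for `A'` and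
  `F s ≤ F (d i) + F s'` (`F_add`).
* `group_small` (`s ≤ 1/400`, `A.card ≥ m/5 + 14`): not dominated: group_free. Dominated by `i`, `u = s' < (192/m)(u + v)`, `v = d i`, so `u ≤ 384 v/m`; `group_grow` for `A'`, `k = 13`:
  first alternative as before; second `u ≥ 2^13 (m/5) b`, and `F_strict` gives the gain `u/1200 ≥ m b`. (`v > 0` because `s > 0`; `s = 0` forces `b = 0`, trivial by `F_sum`.)
* `group`: (`s ≤ 1`, `A.card ≥ m/5 + 15`): not dominated: group_free; dominated: `s' ≤ (192/m) ≤ 1/400`, `group_small` for `A'`.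
-/

set_option autoImplicit false

namespace Pool.Agent.H86.FM

open Finset Pool.Agent.H14RC

/-- The sum over `A` of nonnegative sizes. -/
private theorem sum_nn {ι : Type*} {A : Finset ι} {d : ι → ℝ} {b : ℝ} (hb : 0 ≤ b)
    (hd : ∀ i ∈ A, b ≤ d i) : 0 ≤ ∑ i ∈ A, d i :=
  Finset.sum_nonneg fun i hi => hb.trans (hd i hi)

/-- The sum is at least `card * b`. -/
private theorem card_le {ι : Type*} {A : Finset ι} {d : ι → ℝ} {b : ℝ}
    (hd : ∀ i ∈ A, b ≤ d i) : (A.card : ℝ) * b ≤ ∑ i ∈ A, d i := by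
  have h := Finset.card_nsmul_le_sum A d b hd
  rwa [nsmul_eq_mul] at h

/-- One particle: `F_scale` with `l = d / s`. -/
private theorem one_part {m : ℕ} (hm : 1000000 ≤ m) {x s : ℝ} (hx : 0 ≤ x) (hs : 0 < s) (hs1 : s ≤ 1)
    (h : x ≤ (1 - 192 / m) * s) :
    x / s * F m s + 1 / 2 * (x * Real.log (s / x)) ≤ F m x := by
  rcases hx.eq_or_lt with h0 | h0
  · rw [← h0, F_zero (by omega)]
    simp
  · have hl1 : x / s ≤ 1 - 192 / m := by
      rw [div_le_iff₀ hs]
      exact h
    have h1 := F_scale (by omega) (div_pos h0 hs) hl1 hs.le hs1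
    have e1 : x / s * s = x := by field_simp
    have e2 : 1 / (x / s) = s / x := by field_simp
    rw [e1, e2] at h1
    have e3 : x / s * Real.log (s / x) * s = x * Real.log (s / x) := by field_simp
    rw [e3] at h1
    exact h1

/-- `log N ≤ N (log 2) / 2` for large `N`. -/
private theorem log_le_half {N : ℝ} (hN : 200000 ≤ N) : Real.log N / N ≤ Real.log 2 / 2 := by
  have hN0 : 0 < N := by linarith
  have h1 : Real.log N = Real.log (N / 8) + 3 * Real.log 2 := by
    have e : N = N / 8 * 2 ^ 3 := by ring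
    have e2 : Real.log (N / 8 * 2 ^ 3) = Real.log (N / 8) + 3 * Real.log 2 := by
      rw [Real.log_mul (by positivity) (by positivity), Real.log_pow]
      norm_num
    rw [← e2, ← e]
  have h2 := Real.log_le_sub_one_of_pos (show 0 < N / 8 by positivity)
  have h3 := Real.log_two_gt_d9
  have h4 := Real.log_two_lt_d9
  rw [div_le_div_iff₀ hN0 (by norm_num)]
  have h5 : 0.6931471803 * N ≤ Real.log 2 * N := mul_le_mul_of_nonneg_right h3.le hN0.le
  rw [h1]
  linarith

/-- The entropy of one part which is at most half. -/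
private theorem part_gain {N b x s : ℝ} (hN : 200000 ≤ N) (hb : 0 ≤ b) (hbx : b ≤ x) (hs : 0 < s)
    (hNs : N * b ≤ s) (hx : x ≤ s / 2) : b * Real.log N ≤ x * Real.log (s / x) := by
  have hN0 : 0 < N := by linarith
  have hlN : 0 ≤ Real.log N := Real.log_nonneg (by linarith)
  rcases (hb.trans hbx).eq_or_lt with h0 | h0
  · have : b = 0 := le_antisymm (by linarith) hb
    rw [this, ← h0]
    simp
  · by_cases hc : x * N ≤ s
    · have h1 : N ≤ s / x := by
        rw [le_div_iff₀ h0]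
        linarith
      have h2 : Real.log N ≤ Real.log (s / x) := Real.log_le_log hN0 h1
      calc b * Real.log N ≤ x * Real.log N := mul_le_mul_of_nonneg_right hbx hlN
        _ ≤ x * Real.log (s / x) := mul_le_mul_of_nonneg_left h2 h0.le
    · push Not at hc
      have hmem1 : (1 / N) ∈ Set.Ici (0 : ℝ) := by
        show (0 : ℝ) ≤ 1 / N
        positivity
      have hmem2 : (1 / 2 : ℝ) ∈ Set.Ici (0 : ℝ) := by
        show (0 : ℝ) ≤ 1 / 2
        norm_num
      have ht : x / s ∈ Set.Icc (1 / N) (1 / 2) := by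
        constructor
        · rw [div_le_div_iff₀ hN0 hs]
          linarith
        · rw [div_le_div_iff₀ hs (by norm_num)]
          linarith
      have h1 := Real.concaveOn_negMulLog.min_le_of_mem_Icc hmem1 hmem2 ht
      have e1 : Real.negMulLog (1 / N) = Real.log N / N := by
        rw [Real.negMulLog, one_div, Real.log_inv]
        ring
      have e2 : Real.negMulLog (1 / 2 : ℝ) = Real.log 2 / 2 := by
        rw [Real.negMulLog, one_div, Real.log_inv]
        ring
      have e3 : Real.negMulLog (x / s) = x / s * Real.log (s / x) := by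
        rw [Real.negMulLog]
        have : x / s = (s / x)⁻¹ := by rw [inv_div]
        rw [show Real.log (x / s) = - Real.log (s / x) by rw [this, Real.log_inv]]
        ring
      rw [e1, e2, e3, min_eq_left (log_le_half hN)] at h1
      have h2 := mul_le_mul_of_nonneg_left h1 hs.le
      have e4 : s * (x / s * Real.log (s / x)) = x * Real.log (s / x) := by field_simp
      rw [e4] at h2
      have h3 : N * b * (Real.log N / N) ≤ s * (Real.log N / N) :=
        mul_le_mul_of_nonneg_right hNs (by positivity)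
      have e5 : N * b * (Real.log N / N) = b * Real.log N := by field_simp
      rw [e5] at h3
      exact h3.trans h2

/-- The entropy of all parts. -/
private theorem entropy {ι : Type*} [DecidableEq ι] (A : Finset ι) (d : ι → ℝ) {b : ℝ} (hb : 0 ≤ b)
    (hd : ∀ i ∈ A, b ≤ d i) (hs : 0 < ∑ i ∈ A, d i) (hN : (200000 : ℝ) ≤ A.card) :
    ((A.card : ℝ) - 1) * (b * Real.log A.card) ≤
      ∑ i ∈ A, d i * Real.log ((∑ j ∈ A, d j) / d i) := by
  set s := ∑ j ∈ A, d j with hsdef
  have hN0 : (0 : ℝ) < A.card := by linarith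
  have hlN : 0 ≤ Real.log A.card := Real.log_nonneg (by linarith)
  have hNs : (A.card : ℝ) * b ≤ s := card_le hd
  have hterm : ∀ i ∈ A, 0 ≤ d i * Real.log (s / d i) := by
    intro i hi
    have h0 : 0 ≤ d i := hb.trans (hd i hi)
    have h1 : d i ≤ s := Finset.single_le_sum (f := d) (fun j hj => hb.trans (hd j hj)) hi
    rcases h0.eq_or_lt with h | h
    · rw [← h]; simp
    · apply mul_nonneg h0
      apply Real.log_nonneg
      rw [le_div_iff₀ h]
      linarith
  by_cases hbig : ∃ i ∈ A, s / 2 < d i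
  · obtain ⟨i, hi, hdi⟩ := hbig
    have hsum : ∑ j ∈ A.erase i, d j = s - d i := by
      rw [hsdef, ← Finset.add_sum_erase A d hi]
      ring
    have hother : ∀ j ∈ A.erase i, b * Real.log A.card ≤ d j * Real.log (s / d j) := by
      intro j hj
      have hjA := Finset.mem_of_mem_erase hj
      apply part_gain hN hb (hd j hjA) hs hNs
      have h1 : d j ≤ ∑ j ∈ A.erase i, d j :=
        Finset.single_le_sum (f := d) (fun k hk => hb.trans (hd k (Finset.mem_of_mem_erase hk))) hj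
      rw [hsum] at h1
      linarith
    have h1 := Finset.card_nsmul_le_sum (A.erase i) (fun j => d j * Real.log (s / d j))
      (b * Real.log A.card) hother
    rw [nsmul_eq_mul, Finset.card_erase_of_mem hi] at h1
    have hpos : 1 ≤ A.card := Finset.card_pos.2 ⟨i, hi⟩
    rw [Nat.cast_sub hpos, Nat.cast_one] at h1
    have h2 := Finset.add_sum_erase A (fun j => d j * Real.log (s / d j)) hi
    have h3 := hterm i hi
    linarith
  · push Not at hbig
    have hall : ∀ j ∈ A, b * Real.log A.card ≤ d j * Real.log (s / d j) := fun j hj =>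
      part_gain hN hb (hd j hj) hs hNs (hbig j hj)
    have h1 := Finset.card_nsmul_le_sum A (fun j => d j * Real.log (s / d j))
      (b * Real.log A.card) hall
    rw [nsmul_eq_mul] at h1
    have h2 : 0 ≤ b * Real.log A.card := mul_nonneg hb hlN
    linarith

theorem group_free {m : ℕ} (hm : 1000000 ≤ m) {ι : Type*} [DecidableEq ι] (A : Finset ι) (d : ι → ℝ) {b : ℝ} (hb : 0 ≤ b)
    (hd : ∀ i ∈ A, b ≤ d i) (hs : ∑ i ∈ A, d i ≤ 1) (hcard : (m : ℝ) / 5 ≤ A.card)
    (hfree : ∀ i ∈ A, d i ≤ (1 - 192 / m) * ∑ j ∈ A, d j) :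
    F m (∑ i ∈ A, d i) + m * b ≤ ∑ i ∈ A, F m (d i) := by
  have hm2 : 2 ≤ m := by omega
  have hmR : (1000000 : ℝ) ≤ m := by exact_mod_cast hm
  have hN : (200000 : ℝ) ≤ A.card := by linarith
  have hs0 : 0 ≤ ∑ i ∈ A, d i := sum_nn hb hd
  have hNs := card_le hd
  rcases hs0.eq_or_lt with h0 | h0
  · have hb0 : b = 0 := by
      rw [← h0] at hNs
      by_contra hne
      have hbp : 0 < b := lt_of_le_of_ne hb (Ne.symm hne)
      have : 0 < (A.card : ℝ) * b := mul_pos (by linarith) hbp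
      linarith
    have h1 := F_sum hm2 A d (fun i hi => hb.trans (hd i hi)) hs
    rw [hb0, mul_zero, add_zero]
    exact h1
  · have hsum : ∑ i ∈ A, (d i / (∑ j ∈ A, d j) * F m (∑ j ∈ A, d j) +
        1 / 2 * (d i * Real.log ((∑ j ∈ A, d j) / d i))) ≤ ∑ i ∈ A, F m (d i) :=
      Finset.sum_le_sum fun i hi => one_part hm (hb.trans (hd i hi)) h0 hs (hfree i hi)
    rw [Finset.sum_add_distrib, ← Finset.sum_mul, ← Finset.sum_div, div_self h0.ne', one_mul,
      ← Finset.mul_sum] at hsum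
    have hent := entropy A d hb hd h0 hN
    have hlog : 11 ≤ Real.log A.card := by
      have h1 : Real.log (2 ^ 17) ≤ Real.log A.card := Real.log_le_log (by norm_num) (by linarith)
      have h2 := Real.log_two_gt_d9
      rw [Real.log_pow] at h1
      push_cast at h1
      linarith
    have h1 : b * 11 ≤ b * Real.log A.card := mul_le_mul_of_nonneg_left hlog hb
    have h2 : ((A.card : ℝ) - 1) * (b * 11) ≤ ((A.card : ℝ) - 1) * (b * Real.log A.card) :=
      mul_le_mul_of_nonneg_left h1 (by linarith)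
    have h3 : ((m : ℝ) / 5 - 1) * (b * 11) ≤ ((A.card : ℝ) - 1) * (b * 11) :=
      mul_le_mul_of_nonneg_right (by linarith) (by positivity)
    have h4 : 2 * (m * b) ≤ ((m : ℝ) / 5 - 1) * (b * 11) := by
      have : 0 ≤ b * ((m : ℝ) / 5 - 11) := mul_nonneg hb (by linarith)
      linarith
    linarith

/-- The data of the peeling step: `i` dominates. -/
private theorem peel {m : ℕ} (hm : 1000000 ≤ m) {ι : Type*} [DecidableEq ι] {A : Finset ι} {d : ι → ℝ} {b : ℝ} (hb : 0 ≤ b)
    (hd : ∀ i ∈ A, b ≤ d i) (hs : ∑ i ∈ A, d i ≤ 1) {i : ι} (hi : i ∈ A)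
    (h : (1 - 192 / (m : ℝ)) * ∑ j ∈ A, d j < d i) :
    (∑ j ∈ A.erase i, d j) + d i = ∑ j ∈ A, d j ∧
    (∀ j ∈ A.erase i, b ≤ d j) ∧ 0 ≤ ∑ j ∈ A.erase i, d j ∧ 0 ≤ d i ∧
    ∑ j ∈ A.erase i, d j ≤ 192 / (m : ℝ) * ∑ j ∈ A, d j ∧
    ((A.erase i).card : ℝ) = A.card - 1 ∧
    (∑ j ∈ A.erase i, F m (d j)) + F m (d i) = ∑ j ∈ A, F m (d j) ∧
    F m (∑ j ∈ A, d j) ≤ F m (∑ j ∈ A.erase i, d j) + F m (d i) := by
  have hm2 : 2 ≤ m := by omega
  have e : (∑ j ∈ A.erase i, d j) + d i = ∑ j ∈ A, d j := Finset.sum_erase_add A d hi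
  have hd' : ∀ j ∈ A.erase i, b ≤ d j := fun j hj => hd j (Finset.mem_of_mem_erase hj)
  have h0 : 0 ≤ ∑ j ∈ A.erase i, d j := sum_nn hb hd'
  have hdi : 0 ≤ d i := hb.trans (hd i hi)
  have hpos : 1 ≤ A.card := Finset.card_pos.2 ⟨i, hi⟩
  refine ⟨e, hd', h0, hdi, ?_, ?_, Finset.sum_erase_add A (fun j => F m (d j)) hi, ?_⟩
  · linarith
  · rw [Finset.card_erase_of_mem hi, Nat.cast_sub hpos, Nat.cast_one]
  · rw [← e]
    exact F_add hm2 h0 hdi (by linarith)

theorem group_grow {m : ℕ} (hm : 1000000 ≤ m) {ι : Type*} [DecidableEq ι] (k : ℕ) (A : Finset ι) (d : ι → ℝ) {b : ℝ} (hb : 0 ≤ b)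
    (hd : ∀ i ∈ A, b ≤ d i) (hs : ∑ i ∈ A, d i ≤ 1) (hcard : (m : ℝ) / 5 + k ≤ A.card) :
    F m (∑ i ∈ A, d i) + m * b ≤ ∑ i ∈ A, F m (d i) ∨ 2 ^ k * ((m : ℝ) / 5) * b ≤ ∑ i ∈ A, d i := by
  have hmR : (1000000 : ℝ) ≤ m := by exact_mod_cast hm
  have hm0 : (0 : ℝ) < m := by linarith
  induction k generalizing A with
  | zero =>
    right
    have h1 := card_le hd
    have h2 : (m : ℝ) / 5 * b ≤ A.card * b :=
      mul_le_mul_of_nonneg_right (by push_cast at hcard; linarith) hb
    rw [pow_zero, one_mul]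
    exact h2.trans h1
  | succ k ih =>
    push_cast at hcard
    have hk0 : (0 : ℝ) ≤ k := Nat.cast_nonneg k
    by_cases hfree : ∀ i ∈ A, d i ≤ (1 - 192 / (m : ℝ)) * ∑ j ∈ A, d j
    · left
      exact group_free hm A d hb hd hs (by linarith) hfree
    · push Not at hfree
      obtain ⟨i, hi, hdi⟩ := hfree
      obtain ⟨e, hd', h0, hv0, hle, hc, hF, hFa⟩ := peel hm hb hd hs hi hdi
      rcases ih (A.erase i) hd' (by linarith) (by linarith) with h | h
      · left
        linarith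
      · right
        have h192 : 192 / (m : ℝ) ≤ 1 / 2 := by
          rw [div_le_iff₀ hm0]
          linarith
        have hs0 : 0 ≤ ∑ j ∈ A, d j := by linarith
        have h2 : 192 / (m : ℝ) * ∑ j ∈ A, d j ≤ 1 / 2 * ∑ j ∈ A, d j :=
          mul_le_mul_of_nonneg_right h192 hs0
        have e2 : (2 : ℝ) ^ (k + 1) * ((m : ℝ) / 5) * b = 2 * (2 ^ k * ((m : ℝ) / 5) * b) := by ring
        rw [e2]
        linarith

theorem group_small {m : ℕ} (hm : 1000000 ≤ m) {ι : Type*} [DecidableEq ι] (A : Finset ι) (d : ι → ℝ) {b : ℝ} (hb : 0 ≤ b)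
    (hd : ∀ i ∈ A, b ≤ d i) (hs : ∑ i ∈ A, d i ≤ 1 / 400) (hcard : (m : ℝ) / 5 + 14 ≤ A.card) :
    F m (∑ i ∈ A, d i) + m * b ≤ ∑ i ∈ A, F m (d i) := by
  have hm2 : 2 ≤ m := by omega
  have hmR : (1000000 : ℝ) ≤ m := by exact_mod_cast hm
  have hm0 : (0 : ℝ) < m := by linarith
  by_cases hfree : ∀ i ∈ A, d i ≤ (1 - 192 / (m : ℝ)) * ∑ j ∈ A, d j
  · exact group_free hm A d hb hd (by linarith) (by linarith) hfree
  · push Not at hfree
    obtain ⟨i, hi, hdi⟩ := hfree
    obtain ⟨e, hd', h0, hv0, hle, hc, hF, hFa⟩ := peel hm hb hd (by linarith) hi hdi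
    have h192 : 192 / (m : ℝ) ≤ 1 / 2 := by
      rw [div_le_iff₀ hm0]
      linarith
    have hs0 : 0 ≤ ∑ j ∈ A, d j := by linarith
    have hvpos : 0 < d i := by
      have : 0 ≤ (1 - 192 / (m : ℝ)) * ∑ j ∈ A, d j := mul_nonneg (by linarith) hs0
      linarith
    rcases group_grow hm 13 (A.erase i) d hb hd' (by linarith) (by push_cast; linarith) with h | h
    · linarith
    · have hu : ∑ j ∈ A.erase i, d j ≤ 384 * d i / m := by
        -- `s ≤ 2 v`
        have h1 : 192 / (m : ℝ) * ∑ j ∈ A, d j ≤ 1 / 2 * ∑ j ∈ A, d j :=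
          mul_le_mul_of_nonneg_right h192 hs0
        have h2 : ∑ j ∈ A, d j ≤ 2 * d i := by linarith
        have h3 : 192 / (m : ℝ) * ∑ j ∈ A, d j ≤ 192 / (m : ℝ) * (2 * d i) :=
          mul_le_mul_of_nonneg_left h2 (by positivity)
        have e3 : 192 / (m : ℝ) * (2 * d i) = 384 * d i / m := by ring
        rw [e3] at h3
        exact hle.trans h3
      have h1 := F_strict hm h0 hvpos (by linarith) hu
      have h2 := F_sum hm2 (A.erase i) d (fun j hj => hb.trans (hd' j hj)) (by linarith)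
      have hmb : 0 ≤ (m : ℝ) * b := mul_nonneg hm0.le hb
      have e4 : (2 : ℝ) ^ 13 * ((m : ℝ) / 5) * b = 8192 / 5 * (m * b) := by ring
      rw [e4] at h
      rw [← e]
      linarith

theorem group {m : ℕ} (hm : 1000000 ≤ m) {ι : Type*} [DecidableEq ι] (A : Finset ι) (d : ι → ℝ) {b : ℝ} (hb : 0 ≤ b)
    (hd : ∀ i ∈ A, b ≤ d i) (hs : ∑ i ∈ A, d i ≤ 1) (hcard : (m : ℝ) / 5 + 15 ≤ A.card) :
    F m (∑ i ∈ A, d i) + m * b ≤ ∑ i ∈ A, F m (d i) := by
  have hmR : (1000000 : ℝ) ≤ m := by exact_mod_cast hm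
  have hm0 : (0 : ℝ) < m := by linarith
  by_cases hfree : ∀ i ∈ A, d i ≤ (1 - 192 / (m : ℝ)) * ∑ j ∈ A, d j
  · exact group_free hm A d hb hd hs (by linarith) hfree
  · push Not at hfree
    obtain ⟨i, hi, hdi⟩ := hfree
    obtain ⟨e, hd', h0, hv0, hle, hc, hF, hFa⟩ := peel hm hb hd hs hi hdi
    have h192 : 192 / (m : ℝ) ≤ 1 / 400 := by
      rw [div_le_iff₀ hm0]
      linarith
    have hs0 : 0 ≤ ∑ j ∈ A, d j := by linarith
    have h1 : 192 / (m : ℝ) * ∑ j ∈ A, d j ≤ 1 / 400 * ∑ j ∈ A, d j :=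
      mul_le_mul_of_nonneg_right h192 hs0
    have h := group_small hm (A.erase i) d hb hd' (by linarith) (by linarith)
    linarith

end Pool.Agent.H86.FM
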