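import Mathlib

/-!
# Project FM: the carry lemma (abstract, only Mathlib)

`Sub g`: `g` is 1-periodic, even, subadditive, `g 0 = 0`.

Proof sketches.
* `Sub.nonneg`: `0 = g 0 = g (x + (-x)) ≤ g x + g (-x) = 2 g x`.
* `carry_up`: induction on the cardinality of `s`. If all `z i ≤ 1` (i in s) take `z' = z`. Otherwise there are
  `j ∈ s` with `z j > 1` and (since the sum is at most the cardinality) `i ∈ s` with `z i < 1`. Put `z' j = 1`, replace
  `z i` by `z i + (z j - 1)` and apply the induction hypothesis to `s.erase j`: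
  `g (z i + z j - 1) = g (z i + z j) ≤ g (z i) + g (z j)`, `g 1 = 0`.
* `carry`: apply `carry_up` to `z` (all `≥ lo`), get `z'` with `lo ≤ z' i ≤ min 1 hi`: note that in `carry_up` the values
  may increase above `hi`, so when `hi ≤ 1` do not apply it at all (`z' = z`). If some `z i < 0` apply `carry_up` to `1 - z'`
  (sum at most `m` since the sum of `z'` is nonnegative; `g (1 - x) = g x`), lower bound `1 - min 1 hi`.
-/

set_option autoImplicit false

namespace Pool.Agent.H86.FM

open Finset

/-- 1-periodic, even, subadditive, zero at zero. -/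
structure Sub (g : ℝ → ℝ) : Prop where
  zero : g 0 = 0
  per : ∀ x, g (x + 1) = g x
  even : ∀ x, g (-x) = g x
  sub : ∀ x y, g (x + y) ≤ g x + g y

theorem Sub.nonneg {g : ℝ → ℝ} (hg : Sub g) (x : ℝ) : 0 ≤ g x := by
  have h := hg.sub x (-x)
  rw [add_neg_cancel, hg.zero, hg.even] at h
  linarith

theorem Sub.int {g : ℝ → ℝ} (hg : Sub g) (x : ℝ) (n : ℤ) : g (x + n) = g x := by
  have h : Function.Periodic g 1 := hg.per
  simpa using h.int_mul n x

theorem Sub.one_sub {g : ℝ → ℝ} (hg : Sub g) (x : ℝ) : g (1 - x) = g x := by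
  have h : (1 : ℝ) - x = -x + 1 := by ring
  rw [h, hg.per, hg.even]

theorem Sub.sum {g : ℝ → ℝ} (hg : Sub g) {ι : Type*} (s : Finset ι) (z : ι → ℝ) :
    g (∑ i ∈ s, z i) ≤ ∑ i ∈ s, g (z i) := by
  classical
  induction s using Finset.induction_on with
  | empty => simp [hg.zero]
  | insert a s ha ih =>
    rw [Finset.sum_insert ha, Finset.sum_insert ha]
    have h := hg.sub (z a) (∑ i ∈ s, z i)
    linarith

private theorem carry_up_aux {g : ℝ → ℝ} (hg : Sub g) {ι : Type*} [DecidableEq ι] (lo : ℝ) (hlo1 : lo ≤ 1) (n : ℕ) :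
    ∀ (s : Finset ι) (z : ι → ℝ), s.card = n → (∀ i ∈ s, lo ≤ z i) → ∑ i ∈ s, z i ≤ s.card →
    ∃ z' : ι → ℝ, (∀ i ∈ s, lo ≤ z' i ∧ z' i ≤ 1) ∧ ∑ i ∈ s, z' i = ∑ i ∈ s, z i ∧
      ∑ i ∈ s, g (z' i) ≤ ∑ i ∈ s, g (z i) := by
  induction n with
  | zero =>
    intro s z hc _ _
    have hs : s = ∅ := Finset.card_eq_zero.mp hc
    subst hs
    exact ⟨z, by simp, rfl, le_refl _⟩
  | succ n ih =>
    intro s z hc hlo hs
    by_cases hall : ∀ i ∈ s, z i ≤ 1
    · exact ⟨z, fun i hi => ⟨hlo i hi, hall i hi⟩, rfl, le_refl _⟩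
    · push Not at hall
      obtain ⟨j, hj, hj1⟩ := hall
      have hex : ∃ i ∈ s, z i < 1 := by
        by_contra hcon
        push Not at hcon
        have h2 : ∑ i ∈ s, (1 : ℝ) < ∑ i ∈ s, z i := Finset.sum_lt_sum hcon ⟨j, hj, hj1⟩
        rw [Finset.sum_const, nsmul_eq_mul, mul_one] at h2
        linarith
      obtain ⟨i, hi, hi1⟩ := hex
      have hij : i ≠ j := by
        rintro rfl
        linarith
      have hi' : i ∈ s.erase j := Finset.mem_erase.mpr ⟨hij, hi⟩
      have hsj : ∑ k ∈ s.erase j, z k = ∑ k ∈ s, z k - z j := by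
        have := Finset.add_sum_erase s z hj
        linarith
      have hgj : ∑ k ∈ s.erase j, g (z k) = ∑ k ∈ s, g (z k) - g (z j) := by
        have := Finset.add_sum_erase s (fun k => g (z k)) hj
        linarith
      have hcard : (s.erase j).card = n := by
        rw [Finset.card_erase_of_mem hj, hc]
        rfl
      have hcs : ((s.card : ℕ) : ℝ) = n + 1 := by
        rw [hc]
        push_cast
        ring
      set z1 : ι → ℝ := Function.update z i (z i + (z j - 1)) with hz1
      have hz1i : z1 i = z i + (z j - 1) := by rw [hz1, Function.update_self]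
      have hz1o : ∀ k, k ≠ i → z1 k = z k := fun k hk => by rw [hz1, Function.update_of_ne hk]
      have hsum1 : ∑ k ∈ s.erase j, z1 k = ∑ k ∈ s, z k - 1 := by
        have e1 := Finset.add_sum_erase (s.erase j) z1 hi'
        have e2 := Finset.add_sum_erase (s.erase j) z hi'
        have e3 : ∑ k ∈ (s.erase j).erase i, z1 k = ∑ k ∈ (s.erase j).erase i, z k :=
          Finset.sum_congr rfl fun k hk => hz1o k (Finset.ne_of_mem_erase hk)
        rw [hz1i] at e1
        linarith
      have hgsum1 : ∑ k ∈ s.erase j, g (z1 k) ≤ ∑ k ∈ s, g (z k) := by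
        have e1 := Finset.add_sum_erase (s.erase j) (fun k => g (z1 k)) hi'
        have e2 := Finset.add_sum_erase (s.erase j) (fun k => g (z k)) hi'
        have e3 : ∑ k ∈ (s.erase j).erase i, g (z1 k) = ∑ k ∈ (s.erase j).erase i, g (z k) :=
          Finset.sum_congr rfl fun k hk => by rw [hz1o k (Finset.ne_of_mem_erase hk)]
        rw [hz1i] at e1
        have e4 : g (z i + (z j - 1)) = g (z i + z j) := by
          rw [← hg.per (z i + (z j - 1))]
          congr 1
          ring
        have e5 := hg.sub (z i) (z j)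
        linarith
      obtain ⟨z2, h21, h22, h23⟩ := ih (s.erase j) z1 hcard (by
        intro k hk
        by_cases hki : k = i
        · subst hki
          rw [hz1i]
          have := hlo k hi
          linarith
        · rw [hz1o k hki]
          exact hlo k (Finset.mem_of_mem_erase hk)) (by
        rw [hsum1, hcard]
        rw [hcs] at hs
        linarith)
      refine ⟨Function.update z2 j 1, ?_, ?_, ?_⟩
      · intro k hk
        by_cases hkj : k = j
        · subst hkj
          rw [Function.update_self]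
          exact ⟨hlo1, le_refl _⟩
        · rw [Function.update_of_ne hkj]
          exact h21 k (Finset.mem_erase.mpr ⟨hkj, hk⟩)
      · have e1 := Finset.add_sum_erase s (Function.update z2 j 1) hj
        have e3 : ∑ k ∈ s.erase j, Function.update z2 j 1 k = ∑ k ∈ s.erase j, z2 k :=
          Finset.sum_congr rfl fun k hk => Function.update_of_ne (Finset.ne_of_mem_erase hk) _ _
        rw [Function.update_self] at e1
        linarith
      · have e1 := Finset.add_sum_erase s (fun k => g (Function.update z2 j 1 k)) hj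
        have e3 : ∑ k ∈ s.erase j, g (Function.update z2 j 1 k) = ∑ k ∈ s.erase j, g (z2 k) :=
          Finset.sum_congr rfl fun k hk => by rw [Function.update_of_ne (Finset.ne_of_mem_erase hk)]
        rw [Function.update_self] at e1
        have e4 : g 1 = 0 := by
          have := hg.per 0
          rw [zero_add, hg.zero] at this
          exact this
        linarith

theorem carry_up {g : ℝ → ℝ} (hg : Sub g) {ι : Type*} [DecidableEq ι] (s : Finset ι) (z : ι → ℝ) (lo : ℝ)
    (hlo : ∀ i ∈ s, lo ≤ z i) (hlo1 : lo ≤ 1) (hs : ∑ i ∈ s, z i ≤ s.card) :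
    ∃ z' : ι → ℝ, (∀ i ∈ s, lo ≤ z' i ∧ z' i ≤ 1) ∧ ∑ i ∈ s, z' i = ∑ i ∈ s, z i ∧
      ∑ i ∈ s, g (z' i) ≤ ∑ i ∈ s, g (z i) :=
  carry_up_aux hg lo hlo1 s.card s z rfl hlo hs

/-- The carry lemma: a real tuple with mean in `[0,1]` can be moved into `[0,1]` (and inside its old hull)
without changing the sum and without increasing the sum of the values of `g`. -/
theorem carry {g : ℝ → ℝ} (hg : Sub g) {m : ℕ} (hm : 1 ≤ m) (z : Fin m → ℝ) {lo hi : ℝ}
    (hz : ∀ i, lo ≤ z i ∧ z i ≤ hi) (h0 : 0 ≤ ∑ i, z i) (h1 : ∑ i, z i ≤ m) :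
    ∃ z' : Fin m → ℝ, (∀ i, max 0 lo ≤ z' i ∧ z' i ≤ min 1 hi) ∧ ∑ i, z' i = ∑ i, z i ∧
      ∑ i, g (z' i) ≤ ∑ i, g (z i) := by
  have hmR : (1 : ℝ) ≤ m := by exact_mod_cast hm
  have hlo1 : lo ≤ 1 := by
    have h2 : ∑ _i : Fin m, lo ≤ ∑ i, z i := Finset.sum_le_sum fun i _ => (hz i).1
    rw [Finset.sum_const, Finset.card_univ, Fintype.card_fin, nsmul_eq_mul] at h2
    by_contra hcon
    push Not at hcon
    nlinarith
  have hhi0 : 0 ≤ hi := by
    have h2 : ∑ i, z i ≤ ∑ _i : Fin m, hi := Finset.sum_le_sum fun i _ => (hz i).2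
    rw [Finset.sum_const, Finset.card_univ, Fintype.card_fin, nsmul_eq_mul] at h2
    by_contra hcon
    push Not at hcon
    nlinarith
  obtain ⟨z1, h11, h12, h13⟩ : ∃ z1 : Fin m → ℝ, (∀ i, lo ≤ z1 i ∧ z1 i ≤ min 1 hi) ∧ ∑ i, z1 i = ∑ i, z i ∧
      ∑ i, g (z1 i) ≤ ∑ i, g (z i) := by
    by_cases hh : hi ≤ 1
    · refine ⟨z, fun i => ⟨(hz i).1, ?_⟩, rfl, le_refl _⟩
      rw [min_eq_right hh]
      exact (hz i).2
    · push Not at hh
      obtain ⟨z1, h1, h2, h3⟩ := carry_up hg Finset.univ z lo (fun i _ => (hz i).1) hlo1 (by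
        rw [Finset.card_univ, Fintype.card_fin]
        exact h1)
      refine ⟨z1, fun i => ?_, h2, h3⟩
      rw [min_eq_left hh.le]
      exact h1 i (Finset.mem_univ i)
  by_cases hl : 0 ≤ lo
  · refine ⟨z1, fun i => ?_, h12, h13⟩
    rw [max_eq_right hl]
    exact h11 i
  · push Not at hl
    obtain ⟨w, hw1, hw2, hw3⟩ := carry_up hg Finset.univ (fun i => 1 - z1 i) (1 - min 1 hi)
      (fun i _ => by
        have := (h11 i).2
        linarith) (by
        have : 0 ≤ min 1 hi := le_min zero_le_one hhi0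
        linarith) (by
        rw [Finset.sum_sub_distrib, Finset.sum_const, nsmul_eq_mul, mul_one, h12]
        linarith)
    refine ⟨fun i => 1 - w i, fun i => ?_, ?_, ?_⟩
    · rw [max_eq_left hl.le]
      have := hw1 i (Finset.mem_univ i)
      simp only
      constructor <;> linarith [this.1, this.2]
    · rw [Finset.sum_sub_distrib, hw2, Finset.sum_sub_distrib, ← h12]
      ring
    · calc ∑ i, g (1 - w i) = ∑ i, g (w i) := Finset.sum_congr rfl fun i _ => hg.one_sub _
        _ ≤ ∑ i, g (1 - z1 i) := hw3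
        _ = ∑ i, g (z1 i) := Finset.sum_congr rfl fun i _ => hg.one_sub _
        _ ≤ ∑ i, g (z i) := h13

end Pool.Agent.H86.FM
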