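import Pool.Agent.H86.FM.Base
import Pool.Agent.H86.FM.Carry

/-!
# Project FM: the periodic extension of `F m` is subadditive (value iteration)

Proof sketch. Let `U g x = ⨅ z : {z : Fin m → ℝ // ∑ z = m x}, (∑ g (z i)) / m + (sup z - inf z)` over ALL real tuples
(range of the tuple = `sup' - inf'` over `univ`, or the infimum over triples (z, lo, hi) with `lo ≤ z i ≤ hi` of
`(∑ g (z i))/m + (hi - lo)`, which avoids sup and inf: take the infimum of the set of real numbers
`{c | ∃ z lo hi, (∀ i, lo ≤ z i ∧ z i ≤ hi) ∧ ∑ i, z i = m * x ∧ c = (∑ i, g (z i))/m + (hi - lo)}`).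
Start: `g 0 x = if Int.fract x = 0 then 0 else 2`, `g (n+1) = U (g n)`. By induction on `n`:
(1) `Sub (g n)`: periodic, even, `U g 0 = 0` (constant tuple 0, nonnegative) and
subadditive: add the two tuples index by index (the ranges add up);
(2) `Ft m ≤ g n` (start: `Ft ≤ m/(m-1) ≤ 2`, `Ft` vanishes at integers): for `x`, subtract an integer so that
`0 ≤ x ≤ 1`; for a real tuple `z` with mean `x` the carry lemma for `g n` gives `z'` in `[max 0 lo, min 1 hi]`,
so `F m x ≤ (∑ F (z' i))/m + (hi-lo) ≤ (∑ g n (z' i))/m + (hi - lo) ≤ (∑ g n (z i))/m + (hi-lo)`;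
(3) `g (n+1) ≤ g n` (constant tuple).
Let `h x = ⨅ n, g n x` (limit of an antitone sequence). `h ≥ Ft`; `h` is in the class (`le_F_of`): `h (mean) ≤ g (n+1) (mean) ≤
(∑ g n (x i))/m + (hi - lo)`, let `n → ∞`. So `h ≤ F m` on `[0,1]`, hence `h = Ft m` (both periodic), and `h` is subadditive as a limit.
-/

set_option autoImplicit false

namespace Pool.Agent.H86.FM

open Finset Pool.Agent.H14RC

/-- One step of the value iteration. -/
private noncomputable def step (m : ℕ) (g : ℝ → ℝ) (x : ℝ) : ℝ :=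
  sInf {c : ℝ | ∃ (z : Fin m → ℝ) (lo hi : ℝ), (∀ i, lo ≤ z i ∧ z i ≤ hi) ∧ ∑ i, z i = m * x ∧
    c = (∑ i, g (z i)) / m + (hi - lo)}

private theorem step_bdd {m : ℕ} (hm : 2 ≤ m) {g : ℝ → ℝ} (hg : ∀ x, 0 ≤ g x) (x : ℝ) :
    BddBelow {c : ℝ | ∃ (z : Fin m → ℝ) (lo hi : ℝ), (∀ i, lo ≤ z i ∧ z i ≤ hi) ∧
      ∑ i, z i = m * x ∧ c = (∑ i, g (z i)) / m + (hi - lo)} := by
  refine ⟨0, ?_⟩
  rintro _ ⟨z, lo, hi, hz, -, rfl⟩
  have h1 : 0 ≤ (∑ i, g (z i)) / m := div_nonneg (Finset.sum_nonneg fun i _ => hg _) (by positivity)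
  have h2 := hz ⟨0, by omega⟩
  linarith [h2.1, h2.2]

private theorem step_le {m : ℕ} (hm : 2 ≤ m) {g : ℝ → ℝ} (hg : ∀ x, 0 ≤ g x) {x : ℝ}
    (z : Fin m → ℝ) (lo hi : ℝ) (hz : ∀ i, lo ≤ z i ∧ z i ≤ hi) (hs : ∑ i, z i = m * x) :
    step m g x ≤ (∑ i, g (z i)) / m + (hi - lo) :=
  csInf_le (step_bdd hm hg x) ⟨z, lo, hi, hz, hs, rfl⟩

private theorem le_step {m : ℕ} (_hm : 2 ≤ m) {g : ℝ → ℝ} {x c : ℝ}
    (h : ∀ (z : Fin m → ℝ) (lo hi : ℝ), (∀ i, lo ≤ z i ∧ z i ≤ hi) → ∑ i, z i = m * x →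
      c ≤ (∑ i, g (z i)) / m + (hi - lo)) : c ≤ step m g x := by
  apply le_csInf
  · exact ⟨_, fun _ => x, x, x, fun _ => ⟨le_rfl, le_rfl⟩, by simp, rfl⟩
  · rintro _ ⟨z, lo, hi, hz, hs, rfl⟩
    exact h z lo hi hz hs

private theorem step_self {m : ℕ} (hm : 2 ≤ m) {g : ℝ → ℝ} (hg : ∀ x, 0 ≤ g x) (x : ℝ) :
    step m g x ≤ g x := by
  have hmpos : (0 : ℝ) < m := by
    have : 0 < m := by omega
    exact_mod_cast this
  have h := step_le hm hg (x := x) (fun _ => x) x x (fun _ => ⟨le_rfl, le_rfl⟩) (by simp)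
  simp only [sum_const, card_univ, Fintype.card_fin, nsmul_eq_mul, sub_self, add_zero] at h
  rwa [mul_div_cancel_left₀ _ hmpos.ne'] at h

private theorem step_shift {m : ℕ} (hm : 2 ≤ m) {g : ℝ → ℝ} (hg : Sub g) (x : ℝ) (n : ℤ) :
    step m g (x + n) ≤ step m g x := by
  refine le_step hm fun z lo hi hz hs => ?_
  have h := step_le hm hg.nonneg (x := x + n) (fun i => z i + n) (lo + n) (hi + n)
    (fun i => ⟨by linarith [(hz i).1], by linarith [(hz i).2]⟩) (by
      rw [sum_add_distrib, hs]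
      simp only [sum_const, card_univ, Fintype.card_fin, nsmul_eq_mul]
      ring)
  simp only [hg.int] at h
  linarith

private theorem step_neg {m : ℕ} (hm : 2 ≤ m) {g : ℝ → ℝ} (hg : Sub g) (x : ℝ) :
    step m g (-x) ≤ step m g x := by
  refine le_step hm fun z lo hi hz hs => ?_
  have h := step_le hm hg.nonneg (x := -x) (fun i => -z i) (-hi) (-lo)
    (fun i => ⟨by linarith [(hz i).2], by linarith [(hz i).1]⟩) (by
      rw [sum_neg_distrib, hs]
      ring)
  simp only [hg.even] at h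
  linarith

private theorem step_sub {m : ℕ} (hm : 2 ≤ m) {g : ℝ → ℝ} (hg : Sub g) (x y : ℝ) :
    step m g (x + y) ≤ step m g x + step m g y := by
  have key : ∀ (z : Fin m → ℝ) (lo hi : ℝ), (∀ i, lo ≤ z i ∧ z i ≤ hi) → ∑ i, z i = m * x →
      ∀ (z' : Fin m → ℝ) (lo' hi' : ℝ), (∀ i, lo' ≤ z' i ∧ z' i ≤ hi') → ∑ i, z' i = m * y →
      step m g (x + y) ≤ ((∑ i, g (z i)) / m + (hi - lo)) + ((∑ i, g (z' i)) / m + (hi' - lo')) := by
    intro z lo hi hz hs z' lo' hi' hz' hs'
    have h := step_le hm hg.nonneg (x := x + y) (fun i => z i + z' i) (lo + lo') (hi + hi')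
      (fun i => ⟨by linarith [(hz i).1, (hz' i).1], by linarith [(hz i).2, (hz' i).2]⟩) (by
        rw [sum_add_distrib, hs, hs']
        ring)
    have h2 : (∑ i, g (z i + z' i)) / m ≤ (∑ i, g (z i)) / m + (∑ i, g (z' i)) / m := by
      rw [← add_div, ← sum_add_distrib]
      apply div_le_div_of_nonneg_right _ (by positivity)
      exact sum_le_sum fun i _ => hg.sub _ _
    linarith
  have h1 : ∀ (z' : Fin m → ℝ) (lo' hi' : ℝ), (∀ i, lo' ≤ z' i ∧ z' i ≤ hi') → ∑ i, z' i = m * y →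
      step m g (x + y) - ((∑ i, g (z' i)) / m + (hi' - lo')) ≤ step m g x := by
    intro z' lo' hi' hz' hs'
    refine le_step hm fun z lo hi hz hs => ?_
    have := key z lo hi hz hs z' lo' hi' hz' hs'
    linarith
  have h2 : step m g (x + y) - step m g x ≤ step m g y := by
    refine le_step hm fun z' lo' hi' hz' hs' => ?_
    have := h1 z' lo' hi' hz' hs'
    linarith
  linarith

private theorem step_isSub {m : ℕ} (hm : 2 ≤ m) {g : ℝ → ℝ} (hg : Sub g) : Sub (step m g) where
  zero := by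
    refine le_antisymm ?_ ?_
    · have h := step_self hm hg.nonneg 0
      rwa [hg.zero] at h
    · refine le_step hm fun z lo hi hz hs => ?_
      have h1 : 0 ≤ (∑ i, g (z i)) / m :=
        div_nonneg (Finset.sum_nonneg fun i _ => hg.nonneg _) (by positivity)
      have h2 := hz ⟨0, by omega⟩
      linarith [h2.1, h2.2]
  per := by
    intro x
    refine le_antisymm ?_ ?_
    · have h := step_shift hm hg x 1
      simpa using h
    · have h := step_shift hm hg (x + 1) (-1)
      have e : x + 1 + ((-1 : ℤ) : ℝ) = x := by push_cast; ring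
      rwa [e] at h
  even := by
    intro x
    refine le_antisymm (step_neg hm hg x) ?_
    have h := step_neg hm hg (-x)
    rwa [neg_neg] at h
  sub := step_sub hm hg

/-- The start of the iteration. -/
private noncomputable def start (x : ℝ) : ℝ := if Int.fract x = 0 then 0 else 2

private theorem start_isSub : Sub start where
  zero := by simp [start]
  per := by
    intro x
    simp only [start, Int.fract_add_one]
  even := by
    intro x
    simp only [start, Int.fract_neg_eq_zero]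
  sub := by
    intro x y
    unfold start
    by_cases hx : Int.fract x = 0
    · by_cases hy : Int.fract y = 0
      · obtain ⟨a, ha⟩ := Int.fract_eq_zero_iff.1 hx
        obtain ⟨b, hb⟩ := Int.fract_eq_zero_iff.1 hy
        have hxy : Int.fract (x + y) = 0 := by
          rw [Int.fract_eq_zero_iff]
          exact ⟨a + b, by push_cast; rw [ha, hb]⟩
        simp [hx, hy, hxy]
      · rw [if_pos hx, if_neg hy]
        split_ifs <;> norm_num
    · rw [if_neg hx]
      split_ifs <;> norm_num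

/-- The value iteration. -/
private noncomputable def it (m : ℕ) : ℕ → ℝ → ℝ
  | 0 => start
  | n + 1 => step m (it m n)

private theorem it_isSub {m : ℕ} (hm : 2 ≤ m) (n : ℕ) : Sub (it m n) := by
  induction n with
  | zero => exact start_isSub
  | succ n ih => exact step_isSub hm ih

private theorem it_succ_le {m : ℕ} (hm : 2 ≤ m) (n : ℕ) (x : ℝ) : it m (n + 1) x ≤ it m n x :=
  step_self hm (it_isSub hm n).nonneg x

private theorem it_anti {m : ℕ} (hm : 2 ≤ m) (x : ℝ) : Antitone fun n => it m n x :=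
  antitone_nat_of_succ_le fun n => it_succ_le hm n x

private theorem Ft_le_it {m : ℕ} (hm : 2 ≤ m) (n : ℕ) : ∀ x : ℝ, Ft m x ≤ it m n x := by
  have hm2 : (2 : ℝ) ≤ m := by exact_mod_cast hm
  have hmpos : (0 : ℝ) < m := by linarith
  induction n with
  | zero =>
    intro x
    show Ft m x ≤ start x
    unfold start
    by_cases hx : Int.fract x = 0
    · rw [if_pos hx]
      unfold Ft
      rw [hx, F_zero hm]
    · rw [if_neg hx]
      refine (Ft_le_sup hm x).trans ?_
      rw [div_le_iff₀ (by linarith)]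
      linarith
  | succ n ih =>
    intro x
    refine le_step hm fun z lo hi hz hs => ?_
    have hg := it_isSub hm n
    have hfl := Int.fract_add_floor x
    have hf0 := Int.fract_nonneg x
    have hf1 := Int.fract_lt_one x
    have hsum : ∑ i, (z i + ((-⌊x⌋ : ℤ) : ℝ)) = m * Int.fract x := by
      rw [sum_add_distrib, hs]
      simp only [sum_const, card_univ, Fintype.card_fin, nsmul_eq_mul]
      push_cast
      rw [show Int.fract x = x - ⌊x⌋ by linarith]
      ring
    obtain ⟨z', h1, h2, h3⟩ := carry hg (m := m) (by omega) (fun i => z i + ((-⌊x⌋ : ℤ) : ℝ))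
      (lo := lo + ((-⌊x⌋ : ℤ) : ℝ)) (hi := hi + ((-⌊x⌋ : ℤ) : ℝ))
      (fun i => ⟨by linarith [(hz i).1], by linarith [(hz i).2]⟩)
      (by rw [hsum]; positivity) (by rw [hsum]; nlinarith)
    simp only [hg.int] at h3
    have h4 := F_tuple hm z' (lo := max 0 (lo + ((-⌊x⌋ : ℤ) : ℝ)))
      (hi := min 1 (hi + ((-⌊x⌋ : ℤ) : ℝ))) (le_max_left _ _) (min_le_left _ _) h1
    rw [h2, hsum, mul_div_cancel_left₀ _ hmpos.ne'] at h4
    have h5 : (∑ i, F m (z' i)) / m ≤ (∑ i, it m n (z i)) / m := by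
      apply div_le_div_of_nonneg_right _ hmpos.le
      refine le_trans (sum_le_sum fun i _ => ?_) h3
      have h6 : 0 ≤ z' i := (le_max_left _ _).trans (h1 i).1
      have h7 : z' i ≤ 1 := (h1 i).2.trans (min_le_left _ _)
      rw [← Ft_of_mem hm h6 h7]
      exact ih _
    have h6 : lo + ((-⌊x⌋ : ℤ) : ℝ) ≤ max 0 (lo + ((-⌊x⌋ : ℤ) : ℝ)) := le_max_right _ _
    have h7 : min 1 (hi + ((-⌊x⌋ : ℤ) : ℝ)) ≤ hi + ((-⌊x⌋ : ℤ) : ℝ) := min_le_right _ _
    show F m (Int.fract x) ≤ _
    linarith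

private theorem it_tendsto {m : ℕ} (hm : 2 ≤ m) (x : ℝ) :
    Filter.Tendsto (fun n => it m n x) Filter.atTop (nhds (⨅ n, it m n x)) := by
  apply tendsto_atTop_ciInf (it_anti hm x)
  refine ⟨0, ?_⟩
  rintro _ ⟨n, rfl⟩
  exact (it_isSub hm n).nonneg x

private theorem lim_le {m : ℕ} (hm : 2 ≤ m) (n : ℕ) (x : ℝ) : (⨅ k, it m k x) ≤ it m n x := by
  apply ciInf_le
  refine ⟨0, ?_⟩
  rintro _ ⟨k, rfl⟩
  exact (it_isSub hm k).nonneg x

private theorem lim_le_F {m : ℕ} (hm : 2 ≤ m) {x : ℝ} (hx0 : 0 ≤ x) (hx1 : x ≤ 1) :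
    (⨅ n, it m n x) ≤ F m x := by
  have hmpos : (0 : ℝ) < m := by
    have : 0 < m := by omega
    exact_mod_cast this
  refine le_F_of hm (f := fun x => ⨅ n, it m n x) ?_ ?_ ?_ ?_ hx0 hx1
  · refine (lim_le hm 0 0).trans ?_
    rw [(it_isSub hm 0).zero]
  · refine (lim_le hm 0 1).trans ?_
    have h := (it_isSub hm 0).per 0
    rw [zero_add, (it_isSub hm 0).zero] at h
    rw [h]
  · refine ⟨2, fun x _ _ => (lim_le hm 0 x).trans ?_⟩
    show start x ≤ 2
    unfold start
    split_ifs <;> norm_num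
  · intro z lo hi _ _ hz
    have hlim : Filter.Tendsto (fun n => (∑ i, it m n (z i)) / m + (hi - lo)) Filter.atTop
        (nhds ((∑ i, (⨅ n, it m n (z i))) / m + (hi - lo))) := by
      apply Filter.Tendsto.add_const
      apply Filter.Tendsto.div_const
      exact tendsto_finsetSum _ fun i _ => it_tendsto hm (z i)
    refine ge_of_tendsto' hlim fun n => ?_
    refine (lim_le hm (n + 1) _).trans ?_
    exact step_le hm (it_isSub hm n).nonneg z lo hi hz (by field_simp)

private theorem Ft_eq_lim {m : ℕ} (hm : 2 ≤ m) (x : ℝ) : Ft m x = ⨅ n, it m n x := by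
  apply le_antisymm
  · exact le_ciInf fun n => Ft_le_it hm n x
  · have e : ∀ n, it m n x = it m n (Int.fract x) := by
      intro n
      have h := (it_isSub hm n).int (Int.fract x) ⌊x⌋
      rw [Int.fract_add_floor] at h
      exact h
    have e2 : (⨅ n, it m n x) = ⨅ n, it m n (Int.fract x) := by
      congr 1
      funext n
      exact e n
    rw [e2]
    exact lim_le_F hm (Int.fract_nonneg x) (Int.fract_lt_one x).le

theorem Ft_isSub {m : ℕ} (hm : 2 ≤ m) : Sub (Ft m) where
  zero := by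
    unfold Ft
    rw [Int.fract_zero, F_zero hm]
  per := by
    intro x
    have h := Ft_add_int m x 1
    simpa using h
  even := Ft_neg hm
  sub := by
    intro x y
    have hlim : Filter.Tendsto (fun n => it m n x + it m n y) Filter.atTop
        (nhds ((⨅ n, it m n x) + ⨅ n, it m n y)) := (it_tendsto hm x).add (it_tendsto hm y)
    rw [Ft_eq_lim hm x, Ft_eq_lim hm y]
    refine ge_of_tendsto' hlim fun n => ?_
    exact (Ft_le_it hm n (x + y)).trans ((it_isSub hm n).sub x y)

end Pool.Agent.H86.FM
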