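import Pool.Agent.H14RC.Core

/-!
# Project FM (MP_13a5e6_an): the functional equation of `F_m` in the middle. Base module.

Everything is about `F m` of `Pool.Agent.H14RC` (the largest element of the class `InClass m`).
`Ft m x = F m (Int.fract x)` is the periodic extension of `F m`.
All tuples are indexed by `Fin m` and are NOT sorted; `lo`, `hi` are bounds of the tuple.

Proof sketches.
* `F_tuple`: sort the tuple (`Tuple.sort`), apply the relaxed convexity of `F m` (`F_inClass`), the sorted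
  sequence on `ℕ` is `fun i => if h : i < m then x (Tuple.sort x ⟨i, h⟩) else hi` or so;
  the last minus the first value is at most `hi - lo`, the sums do not change.
* `inClass_of`: given a monotone sequence `x : ℕ → ℝ` apply the hypothesis to `fun i : Fin m => x i`,
  `lo = x 0`, `hi = x (m-1)` (`Finset.sum_range`).
* `F_floor`: for `x < 1`, `k = ⌊m x⌋`, the tuple with `m-1-k` zeros, one value `Int.fract (m x)`, `k` ones
  (lo = 0, hi = 1), `F m 0 = F m 1 = 0`; `x = 1` is trivial.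
* `F_le_sup`: `F m` is bounded above (F_bdd, upper, G_le_one), let `S` be the supremum on `[0,1]`; `F_floor` gives
  `S ≤ 1 + S/m`.
-/

set_option autoImplicit false

namespace Pool.Agent.H86.FM

open Finset Pool.Agent.H14RC

/-- The periodic extension of `F m`. -/
noncomputable def Ft (m : ℕ) (x : ℝ) : ℝ := F m (Int.fract x)

theorem F_zero {m : ℕ} (hm : 2 ≤ m) : F m 0 = 0 := by
  refine le_antisymm (F_inClass hm).1 ?_
  have h := le_F hm (G_inClass (m := m) (by omega)) (le_refl (0 : ℝ)) zero_le_one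
  rwa [G_zero] at h

theorem F_one {m : ℕ} (hm : 2 ≤ m) : F m 1 = 0 := by
  refine le_antisymm (F_inClass hm).2.1 ?_
  have h := le_F hm (G_inClass (m := m) (by omega)) zero_le_one (le_refl (1 : ℝ))
  rwa [G_one] at h

theorem G_le_F {m : ℕ} (hm : 2 ≤ m) {x : ℝ} (h0 : 0 ≤ x) (h1 : x ≤ 1) : G x ≤ F m x :=
  le_F hm (G_inClass (by omega)) h0 h1

theorem F_le_G {m : ℕ} (hm : 2 ≤ m) {x : ℝ} (h0 : 0 ≤ x) (h1 : x ≤ 1) : F m x ≤ G x + 6 / m :=
  F_le (by omega) fun _ hf => upper hm hf h0 h1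

theorem F_nonneg {m : ℕ} (hm : 2 ≤ m) {x : ℝ} (h0 : 0 ≤ x) (h1 : x ≤ 1) : 0 ≤ F m x :=
  (G_nonneg h0 h1).trans (G_le_F hm h0 h1)

/-- Relaxed convexity of `F m` for unsorted tuples. -/
theorem F_tuple {m : ℕ} (hm : 2 ≤ m) (x : Fin m → ℝ) {lo hi : ℝ} (hlo : 0 ≤ lo) (hhi : hi ≤ 1)
    (hx : ∀ i, lo ≤ x i ∧ x i ≤ hi) :
    F m ((∑ i, x i) / m) ≤ (∑ i, F m (x i)) / m + (hi - lo) := by
  classical
  set s := Tuple.sort x with hs
  have hmon : Monotone (x ∘ s) := Tuple.monotone_sort x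
  have h := (F_inClass hm).2.2.2 (fun i => if h : i < m then x (s ⟨i, h⟩) else hi)
    (by
      intro i hi'
      simp only [hi', dif_pos]
      exact ⟨hlo.trans (hx _).1, (hx _).2.trans hhi⟩)
    (by
      intro i j hij hj
      have hi' : i < m := lt_of_le_of_lt hij hj
      simp only [hi', hj, dif_pos]
      exact hmon (show (⟨i, hi'⟩ : Fin m) ≤ ⟨j, hj⟩ from hij))
  have hsum : ∀ g : ℝ → ℝ, ∑ i ∈ range m, g (if h : i < m then x (s ⟨i, h⟩) else hi)
      = ∑ i, g (x i) := by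
    intro g
    rw [Finset.sum_range (fun i => g (if h : i < m then x (s ⟨i, h⟩) else hi))]
    have e : ∀ i : Fin m, g (if h : (i : ℕ) < m then x (s ⟨(i : ℕ), h⟩) else hi) = g (x (s i)) := by
      intro i
      rw [dif_pos i.2]
    rw [Finset.sum_congr rfl (fun i _ => e i)]
    exact Equiv.sum_comp s (fun i => g (x i))
  have hs1 := hsum id
  simp only [id] at hs1
  rw [hs1, hsum (F m)] at h
  have hm1 : m - 1 < m := by omega
  have hm0 : 0 < m := by omega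
  rw [dif_pos hm1, dif_pos hm0] at h
  linarith [(hx (s ⟨m - 1, hm1⟩)).2, (hx (s ⟨0, hm0⟩)).1]

/-- How to show that a function is in the class. -/
theorem inClass_of {m : ℕ} (hm : 2 ≤ m) {f : ℝ → ℝ} (h0 : f 0 ≤ 0) (h1 : f 1 ≤ 0)
    (hb : ∃ M : ℝ, ∀ x : ℝ, 0 ≤ x → x ≤ 1 → f x ≤ M)
    (h : ∀ (x : Fin m → ℝ) (lo hi : ℝ), 0 ≤ lo → hi ≤ 1 → (∀ i, lo ≤ x i ∧ x i ≤ hi) →
      f ((∑ i, x i) / m) ≤ (∑ i, f (x i)) / m + (hi - lo)) : InClass m f := by
  refine ⟨h0, h1, hb, ?_⟩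
  intro x hx hmono
  have h' := h (fun i : Fin m => x i) (x 0) (x (m - 1)) (hx 0 (by omega)).1
    (hx (m - 1) (by omega)).2
    (fun i => ⟨hmono 0 i (by omega) i.2, hmono i (m - 1) (by omega) (by omega)⟩)
  rw [Finset.sum_range (fun i => x i), Finset.sum_range (fun i => f (x i))]
  exact h'

/-- The same, with the conclusion `f ≤ F m`. -/
theorem le_F_of {m : ℕ} (hm : 2 ≤ m) {f : ℝ → ℝ} (h0 : f 0 ≤ 0) (h1 : f 1 ≤ 0)
    (hb : ∃ M : ℝ, ∀ x : ℝ, 0 ≤ x → x ≤ 1 → f x ≤ M)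
    (h : ∀ (x : Fin m → ℝ) (lo hi : ℝ), 0 ≤ lo → hi ≤ 1 → (∀ i, lo ≤ x i ∧ x i ≤ hi) →
      f ((∑ i, x i) / m) ≤ (∑ i, f (x i)) / m + (hi - lo)) {x : ℝ} (hx0 : 0 ≤ x) (hx1 : x ≤ 1) :
    f x ≤ F m x :=
  le_F hm (inClass_of hm h0 h1 hb h) hx0 hx1

theorem F_floor {m : ℕ} (hm : 2 ≤ m) {x : ℝ} (h0 : 0 ≤ x) (h1 : x ≤ 1) :
    F m x ≤ 1 + F m (Int.fract (m * x)) / m := by
  have hmpos : (0 : ℝ) < m := by
    have : 0 < m := by omega
    exact_mod_cast this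
  rcases lt_or_eq_of_le h1 with hx | hx
  · have hmx : 0 ≤ (m : ℝ) * x := by positivity
    have hq : ⌊(m : ℝ) * x⌋₊ + 1 ≤ m := by
      have : ⌊(m : ℝ) * x⌋₊ < m := by
        rw [Nat.floor_lt hmx]
        nlinarith
      omega
    have h := one_remainder (F_inClass hm) hq (Int.fract_nonneg ((m : ℝ) * x))
      (Int.fract_lt_one ((m : ℝ) * x)).le
    have e : (Int.fract ((m : ℝ) * x) + (⌊(m : ℝ) * x⌋₊ : ℝ)) / m = x := by
      rw [natCast_floor_eq_intCast_floor hmx, Int.fract_add_floor]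
      field_simp
    rw [e] at h
    linarith
  · subst hx
    have e : Int.fract ((m : ℝ) * 1) = 0 := by
      rw [mul_one]
      exact Int.fract_natCast m
    rw [e, F_zero hm, F_one hm]
    simp

theorem F_le_sup {m : ℕ} (hm : 2 ≤ m) {x : ℝ} (h0 : 0 ≤ x) (h1 : x ≤ 1) :
    F m x ≤ (m : ℝ) / (m - 1) := by
  have hm2 : (2 : ℝ) ≤ m := by exact_mod_cast hm
  have hmpos : (0 : ℝ) < m := by linarith
  obtain ⟨M, hM⟩ := (F_inClass hm).2.2.1
  have hne : (F m '' Set.Icc 0 1).Nonempty := ⟨F m 0, 0, ⟨le_refl _, zero_le_one⟩, rfl⟩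
  have hbdd : BddAbove (F m '' Set.Icc 0 1) := by
    refine ⟨M, ?_⟩
    rintro _ ⟨y, hy, rfl⟩
    exact hM y hy.1 hy.2
  set S := sSup (F m '' Set.Icc 0 1) with hS
  have hle : ∀ y : ℝ, 0 ≤ y → y ≤ 1 → F m y ≤ S := fun y hy0 hy1 =>
    le_csSup hbdd ⟨y, ⟨hy0, hy1⟩, rfl⟩
  have hSS : S ≤ 1 + S / m := by
    refine csSup_le hne ?_
    rintro _ ⟨y, hy, rfl⟩
    refine (F_floor hm hy.1 hy.2).trans ?_
    have := hle (Int.fract (m * y)) (Int.fract_nonneg _) (Int.fract_lt_one _).le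
    have h2 := div_le_div_of_nonneg_right this hmpos.le
    linarith
  have hfin : S ≤ (m : ℝ) / (m - 1) := by
    rw [le_div_iff₀ (by linarith)]
    have h3 : S * m ≤ (1 + S / m) * m := mul_le_mul_of_nonneg_right hSS hmpos.le
    have h4 : (1 + S / m) * m = m + S := by field_simp
    linarith
  exact (hle x h0 h1).trans hfin

theorem Ft_of_mem {m : ℕ} (hm : 2 ≤ m) {x : ℝ} (h0 : 0 ≤ x) (h1 : x ≤ 1) : Ft m x = F m x := by
  unfold Ft
  rcases lt_or_eq_of_le h1 with hx | hx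
  · rw [Int.fract_eq_self.2 ⟨h0, hx⟩]
  · subst hx
    rw [Int.fract_one, F_zero hm, F_one hm]

theorem Ft_nonneg {m : ℕ} (hm : 2 ≤ m) (x : ℝ) : 0 ≤ Ft m x :=
  F_nonneg hm (Int.fract_nonneg x) (Int.fract_lt_one x).le

theorem Ft_le_sup {m : ℕ} (hm : 2 ≤ m) (x : ℝ) : Ft m x ≤ (m : ℝ) / (m - 1) :=
  F_le_sup hm (Int.fract_nonneg x) (Int.fract_lt_one x).le

theorem Ft_add_int (m : ℕ) (x : ℝ) (n : ℤ) : Ft m (x + n) = Ft m x := by
  unfold Ft
  rw [Int.fract_add_intCast]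

theorem Ft_neg {m : ℕ} (hm : 2 ≤ m) (x : ℝ) : Ft m (-x) = Ft m x := by
  unfold Ft
  by_cases h : Int.fract x = 0
  · rw [h, Int.fract_neg_eq_zero.2 h]
  · rw [Int.fract_neg h, F_symm hm (Int.fract_nonneg x) (Int.fract_lt_one x).le]

end Pool.Agent.H86.FM
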