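import Pool.Agent.H86.FM.Group

/-!
# Project FM: the group inequality without the bound `s ≤ 1`

Proof sketch. `group_big`: `s > 1`, `s ≤ m/1200`, `b ≤ d i ≤ 1/4`. `F ≥ G ≥ 4 d` on `[0,1/4]` (`w_le_G` of H14RC), and `G d ≥ 10 d` if
`d ≤ 1/40` (`G_ge_ten`). The set `B` of `i ∈ A` with `d i ≤ 1/40` has at least `A.card - 40 s ≥ m/5 - m/30 = m/6` elements
(`(1/40) * card (A \ B) ≤ s`). So `∑ F (d i) ≥ 4 s + 6 * ∑_B d i ≥ 4 s + 6 (m/6) b = 4 s + m b`, and `4 s ≥ 4 ≥ m/(m-1) ≥ Ft s` (`Ft_le_sup`).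
`group_any`: `s ≤ 1`: `group` and `Ft_of_mem`; `s > 1`: `group_big`.
-/

set_option autoImplicit false

namespace Pool.Agent.H86.FM

open Finset Pool.Agent.H14RC

theorem group_big {m : ℕ} (hm : 1000000 ≤ m) {ι : Type*} [DecidableEq ι] (A : Finset ι) (d : ι → ℝ) {b : ℝ} (hb : 0 ≤ b)
    (hd : ∀ i ∈ A, b ≤ d i ∧ d i ≤ 1 / 4) (hs1 : 1 < ∑ i ∈ A, d i) (hs : ∑ i ∈ A, d i ≤ (m : ℝ) / 1200)
    (hcard : (m : ℝ) / 5 + 15 ≤ A.card) :
    Ft m (∑ i ∈ A, d i) + m * b ≤ ∑ i ∈ A, F m (d i) := by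
  have hm2 : 2 ≤ m := by omega
  have hmR : (1000000 : ℝ) ≤ m := by exact_mod_cast hm
  have hmpos : (0 : ℝ) < m := by linarith
  have hD1 : (m : ℝ) / (m - 1) ≤ 101 / 100 := by
    rw [div_le_iff₀ (by linarith)]; linarith
  have hFt : Ft m (∑ i ∈ A, d i) ≤ 101 / 100 := (Ft_le_sup hm2 _).trans hD1
  have h0 : ∀ i ∈ A, 0 ≤ d i := fun i hi => hb.trans (hd i hi).1
  -- pointwise bound
  have hpt : ∀ i ∈ A, 4 * d i + (if d i ≤ 1 / 40 then 6 * b else 0) ≤ F m (d i) := by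
    intro i hi
    have h1 := h0 i hi
    have h2 := (hd i hi).2
    have hG := G_le_F hm2 h1 (by linarith)
    split_ifs with hc
    · have h10 := G_ge_ten h1 hc
      have := (hd i hi).1
      linarith
    · have h4 : 4 * d i ≤ G (d i) := by
        refine le_trans ?_ (w_le_G h1 (by linarith))
        exact le_min (by linarith) (le_min le_rfl (by linarith))
      linarith
  have hsum := sum_le_sum hpt
  rw [sum_add_distrib, ← mul_sum, ← sum_filter, sum_const, nsmul_eq_mul] at hsum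
  -- the number of small entries
  have hB : (A.card : ℝ) - 40 * ∑ i ∈ A, d i ≤ (A.filter fun i => d i ≤ 1 / 40).card := by
    have h1 : ∑ i ∈ A, (1 : ℝ) ≤ ∑ i ∈ A, ((if d i ≤ 1 / 40 then (1 : ℝ) else 0) + 40 * d i) := by
      refine sum_le_sum fun i hi => ?_
      have := h0 i hi
      split_ifs with hc
      · linarith
      · push Not at hc
        linarith
    rw [sum_add_distrib, ← mul_sum, ← sum_filter] at h1
    simp only [sum_const, nsmul_eq_mul, mul_one] at h1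
    linarith
  have hB2 : (m : ℝ) / 6 ≤ (A.filter fun i => d i ≤ 1 / 40).card := by linarith
  have h6 : (m : ℝ) / 6 * (6 * b) ≤ (A.filter fun i => d i ≤ 1 / 40).card * (6 * b) :=
    mul_le_mul_of_nonneg_right hB2 (by linarith)
  linarith

theorem group_any {m : ℕ} (hm : 1000000 ≤ m) {ι : Type*} [DecidableEq ι] (A : Finset ι) (d : ι → ℝ) {b : ℝ} (hb : 0 ≤ b)
    (hd : ∀ i ∈ A, b ≤ d i ∧ d i ≤ 1 / 4) (hs : ∑ i ∈ A, d i ≤ (m : ℝ) / 1200)
    (hcard : (m : ℝ) / 5 + 15 ≤ A.card) :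
    Ft m (∑ i ∈ A, d i) + m * b ≤ ∑ i ∈ A, F m (d i) := by
  rcases le_or_gt (∑ i ∈ A, d i) 1 with h | h
  · rw [Ft_of_mem (by omega) (sum_nonneg fun i hi => hb.trans (hd i hi).1) h]
    exact group hm A d hb (fun i hi => (hd i hi).1) h hcard
  · exact group_big hm A d hb hd h hs hcard

end Pool.Agent.H86.FM
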