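import Mathlib

/-!
# Project FM: stability for the trapezoid (only Mathlib)

`tz t = min 1 (min (4 t) (4 (1-t)))`, a concave function. All tuples lie in `[a, 1-b]`.

Proof sketches.
* `stab_both` (`a, b ≤ 1/4`, mean `x ∈ [c, 1-c]`, `1/4 ≤ c ≤ 3/8`): `tz t ≥ L t := 4 a + 4 (b - a) (t - a)/(1 - a - b)` on `[a, 1-b]` (chord; check `1`, `4t`, `4(1-t)` separately). So the average of
  `tz (x i)` is at least `L x`, `L` is affine. If `b ≥ a`: `L x ≥ L c ≥ 4 a + 4 (b-a)(c-a)` (as `1-a-b ≤ 1`, `c ≥ a`), and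
  `4 a + 4 (b - a)(c - a) - 4 c (a + b) = 4 a (1 - b - 2 c + a) ≥ 0`. If `b ≤ a` reflect (`t ↦ 1 - t`).
* `stab_left` (`1/4 ≤ a`, `0 ≤ b ≤ 1/4`, mean `x ≤ 1 - c`, `c = 1/4 + e`, `0 < e ≤ 1/8`): `tz t ≥ 1 - (1-4b)(t-a)/(1-a-b)` on `[a,1-b]`. With `r = 1 - a - b`, `q = 1 - 4 b`, `r ≥ 1 - b - x ≥ c - b = e + q/4`
  (the mean is at least `a`, and `r >= 1-b-x` because `a ≤ x`), average of `tz - (a+b)` is at least `r - q (x - a)/r ≥ r - q (r - (e + q/4))/r`, and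
  `r^2 - q r + q e + q^2/4 = (r - q/2)^2 + q e ≥ e^2/2 ≥ r e^2/2`: if `q ≥ e/2` clear; if `q < e/2` then `r - q/2 ≥ e - q/4 ≥ 7e/8`.
-/

set_option autoImplicit false

namespace Pool.Agent.H86.FM

open Finset

noncomputable def tz (t : ℝ) : ℝ := min 1 (min (4 * t) (4 * (1 - t)))

private theorem stab_tz_lb {t l : ℝ} (h1 : l ≤ 1) (h2 : l ≤ 4 * t) (h3 : l ≤ 4 * (1 - t)) :
    l ≤ tz t := le_min h1 (le_min h2 h3)

private theorem stab_tz_symm (t : ℝ) : tz (1 - t) = tz t := by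
  unfold tz
  rw [min_comm (4 * (1 - t)) (4 * (1 - (1 - t)))]
  ring_nf

private theorem stab_avg {m : ℕ} (hm : 1 ≤ m) (x : Fin m → ℝ) {α β : ℝ}
    (h : ∀ i, α + β * x i ≤ tz (x i)) :
    α + β * ((∑ i, x i) / m) ≤ (∑ i, tz (x i)) / m := by
  have hm' : (0 : ℝ) < m := by exact_mod_cast hm
  rw [le_div_iff₀ hm']
  calc (α + β * ((∑ i, x i) / m)) * m = ∑ i, (α + β * x i) := by
        rw [Finset.sum_add_distrib, ← Finset.mul_sum]
        simp only [Finset.sum_const, Finset.card_univ, Fintype.card_fin, nsmul_eq_mul]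
        field_simp
    _ ≤ ∑ i, tz (x i) := Finset.sum_le_sum fun i _ => h i

private theorem stab_mean {m : ℕ} (hm : 1 ≤ m) (x : Fin m → ℝ) {a b : ℝ}
    (hx : ∀ i, a ≤ x i ∧ x i ≤ 1 - b) :
    a ≤ (∑ i, x i) / m ∧ (∑ i, x i) / m ≤ 1 - b := by
  have hm' : (0 : ℝ) < m := by exact_mod_cast hm
  constructor
  · rw [le_div_iff₀ hm']
    calc a * m = ∑ _i : Fin m, a := by simp [mul_comm]
      _ ≤ ∑ i, x i := Finset.sum_le_sum fun i _ => (hx i).1
  · rw [div_le_iff₀ hm']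
    calc ∑ i, x i ≤ ∑ _i : Fin m, (1 - b) := Finset.sum_le_sum fun i _ => (hx i).2
      _ = (1 - b) * m := by
        rw [Finset.sum_const, Finset.card_univ, Fintype.card_fin, nsmul_eq_mul]; ring

private theorem stab_refl {m : ℕ} (hm : 1 ≤ m) (x : Fin m → ℝ) :
    (∑ i, (1 - x i)) / m = 1 - (∑ i, x i) / m := by
  have hm' : (m : ℝ) ≠ 0 := by
    have : (0 : ℝ) < m := by exact_mod_cast hm
    exact this.ne'
  rw [Finset.sum_sub_distrib]
  simp only [Finset.sum_const, Finset.card_univ, Fintype.card_fin, nsmul_eq_mul, mul_one]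
  field_simp

private theorem stab_both_le {m : ℕ} (hm : 1 ≤ m) (x : Fin m → ℝ) {a b c : ℝ} (ha : 0 ≤ a)
    (hb : 0 ≤ b) (ha4 : a ≤ 1 / 4) (hb4 : b ≤ 1 / 4)
    (hc : 1 / 4 ≤ c) (hc' : c ≤ 3 / 8) (hx : ∀ i, a ≤ x i ∧ x i ≤ 1 - b)
    (h1 : c ≤ (∑ i, x i) / m) (hab : a ≤ b) :
    4 * c * (a + b) ≤ (∑ i, tz (x i)) / m := by
  have hr : 0 < 1 - a - b := by linarith
  obtain ⟨k, hk⟩ : ∃ k, k = 4 * (b - a) / (1 - a - b) := ⟨_, rfl⟩
  have hkr : k * (1 - a - b) = 4 * (b - a) := by rw [hk]; field_simp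
  have hk0 : 0 ≤ k := by rw [hk]; exact div_nonneg (by linarith) hr.le
  have hk1 : 4 * (b - a) ≤ k := by nlinarith
  have hk4 : k ≤ 4 := by
    rw [hk, div_le_iff₀ hr]
    linarith
  have key := stab_avg hm x (α := 4 * a - k * a) (β := k) fun i => by
    obtain ⟨p, q⟩ := hx i
    refine stab_tz_lb ?_ ?_ ?_
    · nlinarith
    · nlinarith
    · nlinarith
  have h3 : k * c ≤ k * ((∑ i, x i) / m) := mul_le_mul_of_nonneg_left h1 hk0
  have h4 : 4 * (b - a) * (c - a) ≤ k * (c - a) :=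
    mul_le_mul_of_nonneg_right hk1 (by linarith)
  have h5 : 0 ≤ 4 * a * (1 - b - 2 * c + a) := mul_nonneg (by linarith) (by linarith)
  nlinarith

theorem stab_both {m : ℕ} (hm : 1 ≤ m) (x : Fin m → ℝ) {a b c : ℝ} (ha : 0 ≤ a) (hb : 0 ≤ b) (ha4 : a ≤ 1 / 4) (hb4 : b ≤ 1 / 4)
    (hc : 1 / 4 ≤ c) (hc' : c ≤ 3 / 8) (hx : ∀ i, a ≤ x i ∧ x i ≤ 1 - b)
    (h1 : c ≤ (∑ i, x i) / m) (h2 : (∑ i, x i) / m ≤ 1 - c) :
    4 * c * (a + b) ≤ (∑ i, tz (x i)) / m := by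
  rcases le_total a b with hab | hab
  · exact stab_both_le hm x ha hb ha4 hb4 hc hc' hx h1 hab
  · have key := stab_both_le hm (fun i => 1 - x i) hb ha hb4 ha4 hc hc'
      (fun i => ⟨by have := (hx i).2; linarith, by have := (hx i).1; linarith⟩)
      (by rw [stab_refl hm x]; linarith) hab
    simp only [stab_tz_symm] at key
    rw [add_comm a b]
    exact key

theorem stab_left {m : ℕ} (hm : 1 ≤ m) (x : Fin m → ℝ) {a b e : ℝ} (ha4 : 1 / 4 ≤ a) (hb : 0 ≤ b) (hb4 : b ≤ 1 / 4)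
    (he : 0 < e) (he' : e ≤ 1 / 8) (hx : ∀ i, a ≤ x i ∧ x i ≤ 1 - b)
    (h2 : (∑ i, x i) / m ≤ 1 - (1 / 4 + e)) :
    a + b + e ^ 2 / 2 ≤ (∑ i, tz (x i)) / m := by
  obtain ⟨hm1, hm2⟩ := stab_mean hm x hx
  have ha34 : a ≤ 3 / 4 - e := by linarith
  have hr : 0 < 1 - a - b := by linarith
  obtain ⟨r, hrd⟩ : ∃ r, r = 1 - a - b := ⟨_, rfl⟩
  obtain ⟨q, hq⟩ : ∃ q, q = 1 - 4 * b := ⟨_, rfl⟩
  obtain ⟨k, hk⟩ : ∃ k, k = q / r := ⟨_, rfl⟩
  have hr0 : 0 < r := by rw [hrd]; exact hr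
  have hq0 : 0 ≤ q := by rw [hq]; linarith
  have hkr : k * r = q := by rw [hk]; field_simp
  have hk0 : 0 ≤ k := by rw [hk]; exact div_nonneg hq0 hr0.le
  have hk4 : k ≤ 4 := by
    rw [hk, div_le_iff₀ hr0, hq, hrd]
    linarith
  have key := stab_avg hm x (α := 1 + k * a) (β := -k) fun i => by
    obtain ⟨p, s⟩ := hx i
    have e1 : 0 ≤ k * (x i - a) := mul_nonneg hk0 (by linarith)
    refine stab_tz_lb (by linarith) (by linarith) ?_
    have e2 : k * (1 - b - x i) ≤ 4 * (1 - b - x i) :=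
      mul_le_mul_of_nonneg_right hk4 (by linarith)
    have e3 : k * (x i - a) + k * (1 - b - x i) = q := by rw [← hkr, hrd]; ring
    linarith
  have hX : k * ((∑ i, x i) / m - a) ≤ k * (r - (e + q / 4)) := by
    refine mul_le_mul_of_nonneg_left ?_ hk0
    rw [hrd, hq]; linarith
  have hre : e + q / 4 ≤ r := by rw [hrd, hq]; linarith
  have hr1 : r ≤ 3 / 4 := by rw [hrd]; linarith
  have main : e ^ 2 / 2 ≤ r - k * (r - (e + q / 4)) := by
    have h5 : r * (e ^ 2 / 2) ≤ r * (r - k * (r - (e + q / 4))) := by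
      have h6 : r * (r - k * (r - (e + q / 4))) = (r - q / 2) ^ 2 + q * e := by
        have : r * (k * (r - (e + q / 4))) = q * (r - (e + q / 4)) := by
          rw [← hkr]; ring
        rw [mul_sub, this]; ring
      rw [h6]
      have h7 : r * (e ^ 2 / 2) ≤ e ^ 2 / 2 := by
        have : 0 ≤ e ^ 2 / 2 := by positivity
        nlinarith
      refine h7.trans ?_
      rcases le_total (e / 2) q with h8 | h8
      · have h9 : e / 2 * e ≤ q * e := mul_le_mul_of_nonneg_right h8 he.le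
        have h10 : 0 ≤ (r - q / 2) ^ 2 := sq_nonneg _
        nlinarith
      · have h9 : 7 * e / 8 ≤ r - q / 2 := by linarith
        have h10 : (7 * e / 8) ^ 2 ≤ (r - q / 2) ^ 2 :=
          pow_le_pow_left₀ (by positivity) h9 2
        have h11 : 0 ≤ q * e := mul_nonneg hq0 he.le
        nlinarith
    exact le_of_mul_le_mul_left h5 hr0
  have fin : r = 1 - a - b := hrd
  nlinarith

theorem stab_right {m : ℕ} (hm : 1 ≤ m) (x : Fin m → ℝ) {a b e : ℝ} (ha : 0 ≤ a) (ha4 : a ≤ 1 / 4) (hb4 : 1 / 4 ≤ b)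
    (he : 0 < e) (he' : e ≤ 1 / 8) (hx : ∀ i, a ≤ x i ∧ x i ≤ 1 - b)
    (h2 : 1 / 4 + e ≤ (∑ i, x i) / m) :
    a + b + e ^ 2 / 2 ≤ (∑ i, tz (x i)) / m := by
  have key := stab_left hm (fun i => 1 - x i) hb4 ha ha4 he he'
    (fun i => ⟨by have := (hx i).2; linarith, by have := (hx i).1; linarith⟩)
    (by rw [stab_refl hm x]; linarith)
  simp only [stab_tz_symm] at key
  rw [add_comm a b]
  exact key

end Pool.Agent.H86.FM
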