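import Pool.Agent.H86.FM.Big
import Pool.Agent.H86.FM.Stab

/-!
# Project FM: tuples of large range

Proof sketch. `S = ∑ x i`, `X = S/m` in `[1/4+e, 3/4-e]`, `tz ≤ G ≤ F` (`w_le_G`, `G_le_F`), `D := m/(m-1) ≤ 1.01 `, `Ft ≤ D`.
1. If `a > 1/4` (so `b < 1/4`): `stab_left`: `∑ F ≥ m (a+b) + m e^2/2 ≥ m (a + b) + 5`. If `b > 1/4`: `stab_right`.
2. `a, b ≤ 1/4`: `stab_both` with `c = 1/4 + e`: `∑ F ≥ m (a+b) + 4 e m (a + b)`. If `4 e m (a+b) ≥ D` done. If `∑ F ≥ m(a+b) + D` done.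
   Otherwise `m (a+b) ≤ D/(4e)` and `∑ F < B := D + D/(4e) ≤ m/10000` (`1/e ≤ sqrt(m/10)`, i.e. `1/e^2 ≤ m/10` and `m ≥ 10^6`: `1/e ≤ m/3000`).
3. `A0 = {x i ≤ 1/4}`, `A1 = {x i ≥ 3/4}`, `Am` the rest. `F ≥ 1` on `Am`, so `card Am ≤ B`; `F (x i) ≥ 4 x i` on `A0`, `≥ 4 (1 - x i)` on `A1`, so
   `s0 = ∑_{A0} x i ≤ B/4`, `s1 = ∑_{A1} (1 - x i) ≤ B/4`.
   `m/4 ≤ S ≤ card A1 + (3/4) card Am + s0` gives `card A1 ≥ m/4 - B ≥ m/5 + 15`, the same for `A0` (`m - S = ∑ (1 - x i) ≥ m/4`).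
4. `group_any` for `A0`, `d = x`, `b = a`, and for `A1`, `d = 1 - x`, `b = b` (`F m (1-x) = F m x`, `F_symm`):
   `∑ F (x i) ≥ Ft s0 + m a + Ft s1 + m b + ∑_{Am} F (x i)`, and `Ft S ≤ Ft s0 + Ft s1 + ∑_{Am} Ft (x i)` as `S = s0 - s1 + card A1 + ∑_{Am} x i`
   (`Ft_isSub`: subadditive, even, periodic).
-/

set_option autoImplicit false

namespace Pool.Agent.H86.FM

open Finset Pool.Agent.H14RC

theorem tz_le_F {m : ℕ} (hm : 2 ≤ m) {x : ℝ} (h0 : 0 ≤ x) (h1 : x ≤ 1) : tz x ≤ F m x :=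
  (w_le_G h0 h1).trans (G_le_F hm h0 h1)

private lemma tz_left {x : ℝ} (hx : x ≤ 1 / 4) : 4 * x ≤ tz x := by
  unfold tz
  exact le_min (by linarith) (le_min le_rfl (by linarith))

private lemma tz_right {x : ℝ} (hx : 3 / 4 ≤ x) : 4 * (1 - x) ≤ tz x := by
  unfold tz
  exact le_min (by linarith) (le_min (by linarith) le_rfl)

private lemma tz_mid {x : ℝ} (h1 : 1 / 4 < x) (h2 : x < 3 / 4) : 1 ≤ tz x := by
  unfold tz
  exact le_min le_rfl (le_min (by linarith) (by linarith))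

/-- The main case of `far`: the sum of the values of `F m` is small. -/
private lemma far_core {m : ℕ} (hm : 1000000 ≤ m) (x : Fin m → ℝ) {a b : ℝ} (ha : 0 ≤ a) (hb : 0 ≤ b)
    (hx : ∀ i, a ≤ x i ∧ x i ≤ 1 - b) (hF : ∑ i, F m (x i) ≤ (m : ℝ) / 10000)
    (hS1 : (m : ℝ) / 4 ≤ ∑ i, x i) (hS2 : ∑ i, x i ≤ 3 / 4 * (m : ℝ)) :
    Ft m (∑ i, x i) + m * (a + b) ≤ ∑ i, F m (x i) := by
  classical
  have hm2 : 2 ≤ m := by omega
  have hmR : (1000000 : ℝ) ≤ m := by exact_mod_cast hm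
  have hmpos : (0 : ℝ) < m := by linarith
  have hx0 : ∀ i, 0 ≤ x i ∧ x i ≤ 1 := fun i => ⟨ha.trans (hx i).1, by linarith [(hx i).2]⟩
  set A0 : Finset (Fin m) := univ.filter (fun i => x i ≤ 1 / 4) with hA0
  set A1 : Finset (Fin m) := univ.filter (fun i => 3 / 4 ≤ x i) with hA1
  set Am : Finset (Fin m) := univ.filter (fun i => 1 / 4 < x i ∧ x i < 3 / 4) with hAm
  have dec : ∀ f : Fin m → ℝ, ∑ i, f i = ∑ i ∈ A0, f i + ∑ i ∈ A1, f i + ∑ i ∈ Am, f i := by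
    intro f
    rw [hA0, hA1, hAm, sum_filter, sum_filter, sum_filter, ← sum_add_distrib, ← sum_add_distrib]
    refine sum_congr rfl fun i _ => ?_
    by_cases h1 : x i ≤ 1 / 4
    · rw [if_pos h1, if_neg (show ¬ (3 / 4 ≤ x i) by intro h; linarith),
        if_neg (show ¬ (1 / 4 < x i ∧ x i < 3 / 4) by rintro ⟨h, -⟩; linarith)]
      ring
    · by_cases h2 : 3 / 4 ≤ x i
      · rw [if_neg h1, if_pos h2,
          if_neg (show ¬ (1 / 4 < x i ∧ x i < 3 / 4) by rintro ⟨-, h⟩; linarith)]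
        ring
      · rw [if_neg h1, if_neg h2, if_pos ⟨not_le.1 h1, not_le.1 h2⟩]
        ring
  have mem0 : ∀ i ∈ A0, x i ≤ 1 / 4 := fun i hi => (mem_filter.1 hi).2
  have mem1 : ∀ i ∈ A1, 3 / 4 ≤ x i := fun i hi => (mem_filter.1 hi).2
  have memm : ∀ i ∈ Am, 1 / 4 < x i ∧ x i < 3 / 4 := fun i hi => (mem_filter.1 hi).2
  -- lower bounds for the three parts
  have low0 : 4 * ∑ i ∈ A0, x i ≤ ∑ i ∈ A0, F m (x i) := by
    rw [mul_sum]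
    exact sum_le_sum fun i hi => (tz_left (mem0 i hi)).trans (tz_le_F hm2 (hx0 i).1 (hx0 i).2)
  have low1 : 4 * ∑ i ∈ A1, (1 - x i) ≤ ∑ i ∈ A1, F m (x i) := by
    rw [mul_sum]
    exact sum_le_sum fun i hi => (tz_right (mem1 i hi)).trans (tz_le_F hm2 (hx0 i).1 (hx0 i).2)
  have lowm : (Am.card : ℝ) ≤ ∑ i ∈ Am, F m (x i) := by
    have h : ∑ _i ∈ Am, (1 : ℝ) ≤ ∑ i ∈ Am, F m (x i) :=
      sum_le_sum fun i hi => (tz_mid (memm i hi).1 (memm i hi).2).trans (tz_le_F hm2 (hx0 i).1 (hx0 i).2)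
    simpa using h
  have s0nn : 0 ≤ ∑ i ∈ A0, x i := sum_nonneg fun i _ => (hx0 i).1
  have s1nn : 0 ≤ ∑ i ∈ A1, (1 - x i) := sum_nonneg fun i _ => by linarith [(hx0 i).2]
  have cmnn : (0 : ℝ) ≤ (Am.card : ℝ) := Nat.cast_nonneg _
  have hdecF := dec (fun i => F m (x i))
  have hdecx := dec x
  have hdec1 : (m : ℝ) = (A0.card : ℝ) + (A1.card : ℝ) + (Am.card : ℝ) := by
    have h := dec (fun _ => (1 : ℝ))
    simpa using h
  have hsum1 : ∑ i ∈ A1, x i = (A1.card : ℝ) - ∑ i ∈ A1, (1 - x i) := by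
    rw [sum_sub_distrib]
    simp
  have hmid : ∑ i ∈ Am, x i ≤ 3 / 4 * (Am.card : ℝ) := by
    have h : ∑ i ∈ Am, x i ≤ ∑ _i ∈ Am, (3 / 4 : ℝ) := sum_le_sum fun i hi => (memm i hi).2.le
    have h2 : ∑ _i ∈ Am, (3 / 4 : ℝ) = 3 / 4 * (Am.card : ℝ) := by
      rw [sum_const, nsmul_eq_mul]; ring
    linarith
  have hmidnn : 0 ≤ ∑ i ∈ Am, x i := sum_nonneg fun i _ => (hx0 i).1
  have hcard1 : (m : ℝ) / 5 + 15 ≤ A1.card := by
    linarith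
  have hcard0 : (m : ℝ) / 5 + 15 ≤ A0.card := by
    linarith
  have g0 := group_any hm A0 x (b := a) ha (fun i hi => ⟨(hx i).1, mem0 i hi⟩) (by linarith) hcard0
  have g1 := group_any hm A1 (fun i => 1 - x i) (b := b) hb
    (fun i hi => ⟨by linarith [(hx i).2], by linarith [mem1 i hi]⟩) (by linarith) hcard1
  have g1' : ∑ i ∈ A1, F m (1 - x i) = ∑ i ∈ A1, F m (x i) :=
    sum_congr rfl fun i _ => F_symm hm2 (hx0 i).1 (hx0 i).2
  have hsub := Ft_isSub hm2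
  have hFt : Ft m (∑ i, x i) ≤ Ft m (∑ i ∈ A0, x i) + Ft m (∑ i ∈ A1, (1 - x i))
      + ∑ i ∈ Am, F m (x i) := by
    have e : ∑ i, x i = (∑ i ∈ A0, x i + -(∑ i ∈ A1, (1 - x i)) + ∑ i ∈ Am, x i)
        + ((A1.card : ℤ) : ℝ) := by
      rw [hdecx, hsum1]
      push_cast
      ring
    rw [e, hsub.int]
    have h1 := hsub.sub (∑ i ∈ A0, x i + -(∑ i ∈ A1, (1 - x i))) (∑ i ∈ Am, x i)
    have h2 := hsub.sub (∑ i ∈ A0, x i) (-(∑ i ∈ A1, (1 - x i)))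
    have h3 := hsub.even (∑ i ∈ A1, (1 - x i))
    have h4 := hsub.sum Am x
    have h5 : ∑ i ∈ Am, Ft m (x i) = ∑ i ∈ Am, F m (x i) :=
      sum_congr rfl fun i _ => Ft_of_mem hm2 (hx0 i).1 (hx0 i).2
    linarith
  have e3 : (m : ℝ) * (a + b) = m * a + m * b := by ring
  linarith

theorem far {m : ℕ} (hm : 1000000 ≤ m) (x : Fin m → ℝ) {a b e : ℝ} (ha : 0 ≤ a) (hb : 0 ≤ b)
    (he : 0 < e) (he' : e ≤ 1 / 8) (hme : 10 ≤ m * e ^ 2) (hab : a < 1 / 4 ∨ b < 1 / 4)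
    (hx : ∀ i, a ≤ x i ∧ x i ≤ 1 - b)
    (h1 : 1 / 4 + e ≤ (∑ i, x i) / m) (h2 : (∑ i, x i) / m ≤ 1 - (1 / 4 + e)) :
    m + Ft m (∑ i, x i) ≤ ∑ i, F m (x i) + m * (1 - b - a) := by
  have hm2 : 2 ≤ m := by omega
  have hmR : (1000000 : ℝ) ≤ m := by exact_mod_cast hm
  have hmpos : (0 : ℝ) < m := by linarith
  have hD1 : (m : ℝ) / (m - 1) ≤ 101 / 100 := by
    rw [div_le_iff₀ (by linarith)]; linarith
  have hFt : Ft m (∑ i, x i) ≤ 101 / 100 := (Ft_le_sup hm2 _).trans hD1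
  have hx0 : ∀ i, 0 ≤ x i ∧ x i ≤ 1 := fun i => ⟨ha.trans (hx i).1, by linarith [(hx i).2]⟩
  have htz : ∑ i, tz (x i) ≤ ∑ i, F m (x i) :=
    sum_le_sum fun i _ => tz_le_F hm2 (hx0 i).1 (hx0 i).2
  have he2 : (m : ℝ) * (1 - b - a) = m - m * (a + b) := by ring
  suffices h : Ft m (∑ i, x i) + m * (a + b) ≤ ∑ i, F m (x i) by
    rw [he2]; linarith
  rcases lt_or_ge a (1 / 4) with hA | hA
  swap
  · have hb4 : b ≤ 1 / 4 := by rcases hab with h | h <;> linarith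
    have h3 := stab_left (by omega) x hA hb hb4 he he' hx h2
    rw [le_div_iff₀ hmpos] at h3
    have h4 : (a + b + e ^ 2 / 2) * (m : ℝ) = m * (a + b) + m * e ^ 2 / 2 := by ring
    rw [h4] at h3
    linarith
  rcases le_or_gt b (1 / 4) with hB | hB
  swap
  · have h3 := stab_right (by omega) x ha hA.le hB.le he he' hx h1
    rw [le_div_iff₀ hmpos] at h3
    have h4 : (a + b + e ^ 2 / 2) * (m : ℝ) = m * (a + b) + m * e ^ 2 / 2 := by ring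
    rw [h4] at h3
    linarith
  have h3 := stab_both (by omega) x (c := 1 / 4 + e) ha hb hA.le hB (by linarith) (by linarith) hx h1 h2
  rw [le_div_iff₀ hmpos] at h3
  have h4 : 4 * (1 / 4 + e) * (a + b) * (m : ℝ) = m * (a + b) + 4 * (e * (m * (a + b))) := by ring
  rw [h4] at h3
  have hP0 : 0 ≤ (m : ℝ) * (a + b) := by positivity
  by_cases h5 : (101 / 100 : ℝ) ≤ 4 * (e * (m * (a + b)))
  · linarith
  by_cases h6 : (m : ℝ) * (a + b) + 101 / 100 ≤ ∑ i, F m (x i)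
  · linarith
  push Not at h5 h6
  have hme2 : 3000 ≤ (m : ℝ) * e := by
    by_contra hcon
    push Not at hcon
    have h7 : 10 * (m : ℝ) ≤ (m * e) ^ 2 := by nlinarith
    nlinarith [mul_pos hmpos he]
  have hP : 12000 * ((m : ℝ) * (a + b)) ≤ 101 / 100 * m := by
    have h8 : 3000 * ((m : ℝ) * (a + b)) ≤ (m * e) * (m * (a + b)) :=
      mul_le_mul_of_nonneg_right hme2 hP0
    have h9 : (m : ℝ) * (4 * (e * (m * (a + b)))) ≤ m * (101 / 100) :=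
      mul_le_mul_of_nonneg_left h5.le hmpos.le
    nlinarith
  have hS1 : (m : ℝ) / 4 ≤ ∑ i, x i := by
    rw [le_div_iff₀ hmpos] at h1
    nlinarith [mul_pos hmpos he]
  have hS2 : ∑ i, x i ≤ 3 / 4 * (m : ℝ) := by
    rw [div_le_iff₀ hmpos] at h2
    nlinarith [mul_pos hmpos he]
  exact far_core hm x ha hb hx (by linarith) hS1 hS2

end Pool.Agent.H86.FM
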