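import Pool.Agent.H86.FM.Main

/-!
# Project FM: consequences

* `F_greatest`: the maximum is attained at `x = (m/2 : ℕ)/(m-1)`, a fixed point of `x ↦ Int.fract (m x)`.
* `F_digits`: induction on `n` (for all `d`), `x = (d 0 + y)/m`, `y` the number with the shifted digits.
* `F_lt_one`: `F ≤ G + 6/m`, `G x ≤ a 1 x = 2 sqrt x ≤ 2 x + 1/2`.
-/

set_option autoImplicit false

namespace Pool.Agent.H86.FM

open Finset Pool.Agent.H14RC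

theorem F_greatest {m : ℕ} (hm : 1000000 ≤ m) :
    IsGreatest {y : ℝ | ∃ x : ℝ, 0 ≤ x ∧ x ≤ 1 ∧ y = F m x} ((m : ℝ) / (m - 1)) := by sorry

theorem F_digits {m : ℕ} (hm : 1000000 ≤ m) (n : ℕ) (d : ℕ → ℕ)
    (hd : ∀ j, j < n → (m : ℝ) / 4 + 4 * Real.sqrt m ≤ d j ∧ (d j : ℝ) + 1 ≤ 3 * m / 4 - 4 * Real.sqrt m) :
    F m (∑ j ∈ range n, (d j : ℝ) / (m : ℝ) ^ (j + 1)) = ∑ j ∈ range n, 1 / (m : ℝ) ^ j := by sorry

theorem F_lt_one {m : ℕ} (hm : 2 ≤ m) {x : ℝ} (h0 : 0 ≤ x) (h1 : x < 1 / 4 - 3 / m) : F m x < 1 := by sorry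

end Pool.Agent.H86.FM
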