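import Pool.Agent.H86.FM.Reals

/-!
# Project FM: the tapered function satisfies the relaxed convexity

`ds p q w` is the distance of `w` to `[p, q]`.

Proof sketch of `xi_tuple`. Let `w` be the mean, `n = ⌊w⌋`, `R = hi - lo`. `Ft_tuple` gives `Ft w ≤ avg Ft (z i) + min (n+1) hi - max n lo`, and
`R - (min (n+1) hi - max n lo) = max 0 (hi - (n+1)) + max 0 (n - lo)` is the gain (note `lo ≤ w ≤ hi`). Needed: `avg ds (z i) - ds w ≤ gain`.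
* `p ≤ n` and `n + 1 ≤ q`: `ds w = 0` and `ds (z i) ≤ max 0 (p - lo) + max 0 (hi - q) ≤ gain`.
* `n + 1 ≤ p` (so `w ≤ p`), `hi ≤ q`: `ds (z i) - (p - z i) = max 0 (z i - p) ≤ max 0 (hi - p) ≤ gain`, and the average of `p - z i` is `p - w = ds w`.
* `q ≤ n`, `p ≤ lo`: symmetric.
* `n + 1 ≤ p` and `hi > q`, or `q ≤ n` and `lo < p`: then `R ≥ 3`, and `ds` is 1-Lipschitz: `avg ds (z i) - ds w ≤ avg |z i - w| ≤ R/2` (for `t` in `[lo, hi]`: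
  `|t - w| (hi - lo) ≤ (hi - t)(w - lo) + (t - lo)(hi - w)`, average `2 (w-lo)(hi-w) ≤ (hi-lo)^2/2`); `Ft w ≤ m/(m-1) ≤ 3/2 ≤ R/2`, `Ft (z i) ≥ 0`.
-/

set_option autoImplicit false

namespace Pool.Agent.H86.FM

open Finset Pool.Agent.H14RC

noncomputable def ds (p q : ℤ) (w : ℝ) : ℝ := max 0 ((p : ℝ) - w) + max 0 (w - q)

theorem ds_nonneg (p q : ℤ) (w : ℝ) : 0 ≤ ds p q w := by sorry

theorem xi_tuple {m : ℕ} (hm : 10 ≤ m) (z : Fin m → ℝ) {lo hi : ℝ} (hz : ∀ i, lo ≤ z i ∧ z i ≤ hi)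
    {p q : ℤ} (hpq : p + 3 ≤ q) :
    Ft m ((∑ i, z i) / m) - ds p q ((∑ i, z i) / m) ≤
      (∑ i, (Ft m (z i) - ds p q (z i))) / m + (hi - lo) := by sorry

end Pool.Agent.H86.FM
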