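import Pool.Agent.H86.FM.Far
import Pool.Agent.H86.FM.Xi

/-!
# Project FM: assembly

Proof sketch of `mid_ge`. `H X = max (F X) (1 + (Ft (m X) - ds p (m-p) (m X))/m)` for `1/4 ≤ X ≤ 3/4`, `H X = F X` otherwise. `H ≤ F` by `le_F_of`:
for a tuple with mean `X`, `H X = F X` is `F_tuple`. Otherwise `F X ≥ 1` (`tz_le_F`), so `ds < Ft ≤ m/(m-1)` at `m X`, hence `1/4 + e ≤ X ≤ 3/4 - e`.
If `lo < 1/4` or `hi > 3/4`: `far` with `a = lo`, `b = 1 - hi`. Otherwise `xi_tuple` with `z i = m x i`.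
-/

set_option autoImplicit false

namespace Pool.Agent.H86.FM

open Finset Pool.Agent.H14RC

theorem mid_ge {m : ℕ} (hm : 1000000 ≤ m) {p : ℤ} {e : ℝ} (he : 0 < e) (he' : e ≤ 1 / 8) (hme : 10 ≤ m * e ^ 2)
    (hp : 1 / 4 + e ≤ (p : ℝ) / m - 1 / (m - 1)) (hp2 : 2 * p + 3 ≤ m)
    {x : ℝ} (h1 : (p : ℝ) / m ≤ x) (h2 : x ≤ 1 - (p : ℝ) / m) :
    1 + F m (Int.fract (m * x)) / m ≤ F m x := by sorry

theorem mid_eq {m : ℕ} (hm : 1000000 ≤ m) {x : ℝ} (h1 : 1 / 4 + 4 / Real.sqrt m ≤ x) (h2 : x ≤ 3 / 4 - 4 / Real.sqrt m) :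
    F m x = 1 + F m (Int.fract (m * x)) / m := by sorry

end Pool.Agent.H86.FM
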