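import Pool.Agent.H86.FM.Base
import Pool.Agent.H86.FM.GFacts

/-!
# Project FM: the scaling inequality

Proof sketch. Fix `l ≤ 1 - 192/m`. Let `K z = max (F z) (l * F (z/l) + (1/2) * log(1/l) * z)` for `z ≤ l` and `K z = F z` for
`z > l`. Show `K` is in the class (`le_F_of`), then `K ≤ F` at `z = l x`. Let `x i` be a tuple with mean `z`, bounds `lo, hi`; call `V` the second
value at `z` (`z ≤ l`, `y = z/l ≤ 1`). The case `K z = F z` is `F_tuple` and `F ≤ K`. Now the value `V`:
Case 1: all `x i ≤ l`: `F_tuple` for the tuple `x i / l`, bounds `lo/l`, `min hi l / l`, and linearity.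
Case 2: some `x j > l`, so `hi - lo ≥ l - z = l (1 - y)`. Let `L = log (1/l) ≥ 1 - l ≥ 192/m`. `V ≤ l (G y + 6/m) + (1/2) l L y`.
(a) `L y ≥ 12/m`: `V ≤ l G y + l L y ≤ G (l y) = G z ≤ F z ≤ ...` (G_scale).
(b) `L y < 12/m`: `y < 1/16`, `V ≤ l (1/2 + 12/m) ≤ l (1 - y)` since `12/m ≤ 7/16`; `K ≥ 0`.
-/

set_option autoImplicit false

namespace Pool.Agent.H86.FM

open Finset Pool.Agent.H14RC

/-- The comparison function. -/
private noncomputable def KK (m : ℕ) (l z : ℝ) : ℝ :=
  if z ≤ l then max (F m z) (l * F m (z / l) + 1 / 2 * (Real.log (1 / l) * z)) else F m z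

private theorem F_le_KK (m : ℕ) (l z : ℝ) : F m z ≤ KK m l z := by
  unfold KK
  split_ifs
  · exact le_max_left _ _
  · exact le_refl _

private theorem V_le_KK (m : ℕ) {l z : ℝ} (hz : z ≤ l) :
    l * F m (z / l) + 1 / 2 * (Real.log (1 / l) * z) ≤ KK m l z := by
  unfold KK
  rw [if_pos hz]
  exact le_max_right _ _

private theorem log_ge {l : ℝ} (hl0 : 0 < l) : 1 - l ≤ Real.log (1 / l) := by
  have := Real.log_le_sub_one_of_pos hl0
  rw [one_div, Real.log_inv]
  linarith

private theorem l_log_le {l : ℝ} (hl0 : 0 < l) : l * Real.log (1 / l) ≤ 1 := by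
  have h := Real.log_le_sub_one_of_pos (show (0 : ℝ) < 1 / l by positivity)
  have h1 : l * Real.log (1 / l) ≤ l * (1 / l - 1) := mul_le_mul_of_nonneg_left h hl0.le
  have h2 : l * (1 / l - 1) = 1 - l := by field_simp
  linarith

/-- The tuple inequality for the comparison function. -/
private theorem KK_tuple {m : ℕ} (hm : 1000 ≤ m) {l : ℝ} (hl0 : 0 < l) (hl1 : l ≤ 1 - 192 / m)
    (x : Fin m → ℝ) (lo hi : ℝ) (hlo : 0 ≤ lo) (hhi : hi ≤ 1) (hx : ∀ i, lo ≤ x i ∧ x i ≤ hi) :
    KK m l ((∑ i, x i) / m) ≤ (∑ i, KK m l (x i)) / m + (hi - lo) := by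
  have hm2 : 2 ≤ m := by omega
  have hmR : (1000 : ℝ) ≤ m := by exact_mod_cast hm
  have hm0 : (0 : ℝ) < m := by linarith
  -- the case of the value `F`
  have hFK : (∑ i, F m (x i)) / m ≤ (∑ i, KK m l (x i)) / m :=
    div_le_div_of_nonneg_right (Finset.sum_le_sum fun i _ => F_le_KK m l (x i)) hm0.le
  have hA : F m ((∑ i, x i) / m) ≤ (∑ i, KK m l (x i)) / m + (hi - lo) :=
    (F_tuple hm2 x hlo hhi hx).trans (by linarith)
  -- the mean lies between the bounds
  have hcard : ∑ _i : Fin m, (1 : ℝ) = m := by simp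
  have hz_lo : lo ≤ (∑ i, x i) / m := by
    rw [le_div_iff₀ hm0]
    calc lo * m = ∑ _i : Fin m, lo := by simp [mul_comm]
      _ ≤ ∑ i, x i := Finset.sum_le_sum fun i _ => (hx i).1
  have hz_hi : (∑ i, x i) / m ≤ hi := by
    rw [div_le_iff₀ hm0]
    calc ∑ i, x i ≤ ∑ _i : Fin m, hi := Finset.sum_le_sum fun i _ => (hx i).2
      _ = hi * m := by simp [mul_comm]
  by_cases hzl : (∑ i, x i) / m ≤ l
  swap
  · have : KK m l ((∑ i, x i) / m) = F m ((∑ i, x i) / m) := if_neg hzl
    rw [this]
    exact hA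
  have hKz : KK m l ((∑ i, x i) / m) = max (F m ((∑ i, x i) / m))
      (l * F m ((∑ i, x i) / m / l) + 1 / 2 * (Real.log (1 / l) * ((∑ i, x i) / m))) := if_pos hzl
  rw [hKz]
  refine max_le hA ?_
  by_cases hall : ∀ i, x i ≤ l
  · -- Case 1
    have ht := F_tuple hm2 (fun i => x i / l) (lo := lo / l) (hi := min hi l / l)
      (by positivity) (by rw [div_le_one hl0]; exact min_le_right _ _)
      (fun i => ⟨div_le_div_of_nonneg_right (hx i).1 hl0.le,
        div_le_div_of_nonneg_right (le_min (hx i).2 (hall i)) hl0.le⟩)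
    have e1 : (∑ i, x i / l) / m = (∑ i, x i) / m / l := by
      rw [← Finset.sum_div, div_right_comm]
    rw [e1] at ht
    have ht2 := mul_le_mul_of_nonneg_left ht hl0.le
    have e2 : l * ((∑ i, F m (x i / l)) / m + (min hi l / l - lo / l)) =
        (∑ i, l * F m (x i / l)) / m + (min hi l - lo) := by
      rw [← Finset.mul_sum]
      field_simp
    rw [e2] at ht2
    have e3 : 1 / 2 * (Real.log (1 / l) * ((∑ i, x i) / m)) =
        (∑ i, 1 / 2 * (Real.log (1 / l) * x i)) / m := by
      rw [← Finset.mul_sum, ← Finset.mul_sum]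
      ring
    have e4 : (∑ i, (l * F m (x i / l) + 1 / 2 * (Real.log (1 / l) * x i))) / m ≤
        (∑ i, KK m l (x i)) / m :=
      div_le_div_of_nonneg_right (Finset.sum_le_sum fun i _ => V_le_KK m (hall i)) hm0.le
    rw [Finset.sum_add_distrib, add_div] at e4
    have e5 : min hi l ≤ hi := min_le_left _ _
    rw [e3]
    linarith
  · -- Case 2
    push Not at hall
    obtain ⟨j, hj⟩ := hall
    set z := (∑ i, x i) / m with hz
    have hz0 : 0 ≤ z := hlo.trans hz_lo
    set y := z / l with hy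
    have hy0 : 0 ≤ y := div_nonneg hz0 hl0.le
    have hy1 : y ≤ 1 := (div_le_one hl0).2 hzl
    have hzy : z = l * y := by rw [hy]; field_simp
    have hL1 := log_ge hl0
    set L := Real.log (1 / l) with hL
    have hL2 : 192 / (m : ℝ) ≤ L := by linarith
    have h192 : (0 : ℝ) < 192 / m := by positivity
    have hL0 : 0 < L := by linarith
    have hV1 : F m y ≤ G y + 6 / m := F_le_G hm2 hy0 hy1
    have hV2 : l * F m y ≤ l * (G y + 6 / m) := mul_le_mul_of_nonneg_left hV1 hl0.le
    have hrange : l * (1 - y) ≤ hi - lo := by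
      have := (hx j).2
      have e : l * (1 - y) = l - z := by rw [hzy]; ring
      rw [e]
      linarith
    by_cases hcase : 12 / (m : ℝ) ≤ L * y
    · -- (a)
      have h1 := G_scale hl0 (by linarith : l ≤ 1) hy0 hy1
      rw [← hL, ← hzy] at h1
      have hz1 : z ≤ 1 := hz_hi.trans hhi
      have h2 := G_le_F hm2 hz0 hz1
      have h3 : l * (6 / (m : ℝ)) ≤ 1 / 2 * (l * L * y) := by
        have : l * (12 / (m : ℝ)) ≤ l * (L * y) := mul_le_mul_of_nonneg_left hcase hl0.le
        have e : l * (12 / (m : ℝ)) = 2 * (l * (6 / (m : ℝ))) := by ring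
        rw [e] at this
        nlinarith
      have e : 1 / 2 * (L * z) = 1 / 2 * (l * L * y) := by rw [hzy]; ring
      rw [e]
      have e2 : l * (G y + 6 / m) = l * G y + l * (6 / m) := by ring
      rw [e2] at hV2
      linarith
    · -- (b)
      push Not at hcase
      have hy16 : y ≤ 1 / 16 := by
        have h1 : 192 / (m : ℝ) * y ≤ L * y := mul_le_mul_of_nonneg_right hL2 hy0
        have h2 : 192 / (m : ℝ) * y < 12 / m := lt_of_le_of_lt h1 hcase
        have h3 : 192 / (m : ℝ) * y = 192 * y / m := by ring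
        rw [h3, div_lt_div_iff_of_pos_right hm0] at h2
        linarith
      have hG := G_small hy0 hy16
      have h12 : 12 / (m : ℝ) ≤ 12 / 1000 := div_le_div_of_nonneg_left (by norm_num) (by norm_num) hmR
      have h6 : 6 / (m : ℝ) = 1 / 2 * (12 / m) := by ring
      have h3 : l * (L * y) ≤ l * (12 / m) := mul_le_mul_of_nonneg_left hcase.le hl0.le
      have e : 1 / 2 * (L * z) = 1 / 2 * (l * (L * y)) := by rw [hzy]; ring
      rw [e]
      have h4 : l * (G y + 6 / m) ≤ l * (1 / 2 + 1 / 2 * (12 / m)) := by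
        apply mul_le_mul_of_nonneg_left _ hl0.le
        rw [h6]
        linarith
      have h5 : l * (1 / 2 + 12 / (m : ℝ)) ≤ l * (1 - y) := by
        apply mul_le_mul_of_nonneg_left _ hl0.le
        linarith
      have h6' : l * (1 / 2 + 1 / 2 * (12 / (m : ℝ))) + 1 / 2 * (l * (12 / m)) =
          l * (1 / 2 + 12 / (m : ℝ)) := by ring
      have hK0 : 0 ≤ (∑ i, KK m l (x i)) / m := by
        apply div_nonneg _ hm0.le
        apply Finset.sum_nonneg
        intro i _
        exact (F_nonneg hm2 (hlo.trans (hx i).1) ((hx i).2.trans hhi)).trans (F_le_KK m l (x i))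
      linarith

theorem F_scale {m : ℕ} (hm : 1000 ≤ m) {l x : ℝ} (hl0 : 0 < l) (hl1 : l ≤ 1 - 192 / m) (hx0 : 0 ≤ x) (hx1 : x ≤ 1) :
    l * F m x + 1 / 2 * (l * Real.log (1 / l) * x) ≤ F m (l * x) := by
  have hm2 : 2 ≤ m := by omega
  have hmR : (1000 : ℝ) ≤ m := by exact_mod_cast hm
  have hm0 : (0 : ℝ) < m := by linarith
  have h192 : (0 : ℝ) < 192 / m := by positivity
  have hl1' : l < 1 := by linarith
  have hL1 := log_ge hl0
  have hlx : l * x ≤ l := by nlinarith
  have hsup : ∀ z : ℝ, 0 ≤ z → z ≤ 1 → F m z ≤ 2 := by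
    intro z h0 h1
    refine (F_le_sup hm2 h0 h1).trans ?_
    rw [div_le_iff₀ (by linarith)]
    linarith
  have key : KK m l (l * x) ≤ F m (l * x) := by
    apply le_F_of hm2 (f := KK m l)
    · unfold KK
      rw [if_pos hl0.le, zero_div, F_zero hm2]
      simp
    · unfold KK
      rw [if_neg (not_le.2 hl1'), F_one hm2]
    · refine ⟨3, fun z h0 h1 => ?_⟩
      unfold KK
      split_ifs with hz
      · apply max_le
        · linarith [hsup z h0 h1]
        · have h2 := hsup (z / l) (div_nonneg h0 hl0.le) ((div_le_one hl0).2 hz)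
          have h3 := l_log_le hl0
          have hL0 : 0 ≤ Real.log (1 / l) := by linarith
          have h4 : Real.log (1 / l) * z ≤ Real.log (1 / l) * l :=
            mul_le_mul_of_nonneg_left hz hL0
          have h5 : l * F m (z / l) ≤ l * 2 := mul_le_mul_of_nonneg_left h2 hl0.le
          nlinarith
      · linarith [hsup z h0 h1]
    · exact fun y lo hi hlo hhi hy => KK_tuple hm hl0 hl1 y lo hi hlo hhi hy
    · positivity
    · linarith
  have h2 := V_le_KK m hlx
  have e1 : l * x / l = x := by field_simp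
  rw [e1] at h2
  have e2 : 1 / 2 * (Real.log (1 / l) * (l * x)) = 1 / 2 * (l * Real.log (1 / l) * x) := by ring
  rw [e2] at h2
  exact h2.trans key

end Pool.Agent.H86.FM
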