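import Pool.Agent.H86.FM.Scale

/-!
# Project FM: strict subadditivity for very different sizes

Proof sketch. Comparable sizes (`F_comp`): `s = u + v ≤ 1`, `l = u/s` and `1 - l = v/s` both at most `1 - 192/m`; add `F_scale` for `l` and `1-l`
at `x = s`: `F u + F v ≥ F s + (1/2) (u log (s/u) + v log (s/v))`, and the larger of the two parts is fine: the smaller one of `u, v`, call it `w`,
has `s/w ≥ 2` so `w log (s/w) ≥ w log 2 ≥ 0.69 w`.
`F_strict`: let `u0 = 384 v / m`, `K u = max (F u) (F (u+v) - F v + u/1200)` for `u ≤ u0`, `K u = F u` for `u > u0`; show `K ≤ F` with `le_F_of`: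
for a tuple `x i` with mean `u ≤ u0` every `x i ≤ m u ≤ 384 v ≤ 384/400`, so `x i + v ≤ 1` and `F_tuple` for `x i + v` gives
`F (u+v) - F v + u/1200 ≤ (∑ (F (x i + v) - F v + x i/1200))/m + (hi-lo)` (replace `hi` by `min hi (384 v)`), and each term is `≤ K (x i)`: by definition if `x i ≤ u0`; if `u0 < x i ≤ 384 v` by
`F_comp` with `u = x i`: `l = u/(u+v) ≥ 192/m` since `u ≥ 384 v/m`, `1 - l = v/(u+v) ≥ 1/385 ≥ 192/m`, the gain is
`≥ 0.34 min u v ≥ u/1200`.
-/

set_option autoImplicit false

namespace Pool.Agent.H86.FM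

open Finset Pool.Agent.H14RC

/-- One application of `F_scale`. -/
private theorem scale_part {m : ℕ} (hm : 1000 ≤ m) {u s : ℝ} (hu : 0 < u) (hs : 0 < s) (hs1 : s ≤ 1)
    (h : 192 / (m : ℝ) * s ≤ s - u) :
    u / s * F m s + 1 / 2 * (u * Real.log (s / u)) ≤ F m u := by
  have hl1 : u / s ≤ 1 - 192 / m := by
    rw [div_le_iff₀ hs]
    linarith
  have h1 := F_scale hm (div_pos hu hs) hl1 hs.le hs1
  have e1 : u / s * s = u := by field_simp
  have e2 : 1 / (u / s) = s / u := by field_simp
  rw [e1, e2] at h1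
  have e3 : u / s * Real.log (s / u) * s = u * Real.log (s / u) := by field_simp
  rw [e3] at h1
  exact h1

/-- The smaller part has a large logarithm. -/
private theorem gain {u v : ℝ} (hu : 0 < u) (hv : 0 < v) (h : u ≤ v) :
    34 / 100 * u ≤ 1 / 2 * (u * Real.log ((u + v) / u)) + 1 / 2 * (v * Real.log ((u + v) / v)) := by
  have h1 : (2 : ℝ) ≤ (u + v) / u := by
    rw [le_div_iff₀ hu]
    linarith
  have h2 : Real.log 2 ≤ Real.log ((u + v) / u) := Real.log_le_log (by norm_num) h1
  have h3 := Real.log_two_gt_d9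
  have h4 : 0 ≤ Real.log ((u + v) / v) := by
    apply Real.log_nonneg
    rw [le_div_iff₀ hv]
    linarith
  have h5 : u * (68 / 100) ≤ u * Real.log ((u + v) / u) :=
    mul_le_mul_of_nonneg_left (by linarith) hu.le
  have h6 : 0 ≤ v * Real.log ((u + v) / v) := mul_nonneg hv.le h4
  linarith

theorem F_comp {m : ℕ} (hm : 1000 ≤ m) {u v : ℝ} (hu : 0 < u) (hv : 0 < v) (huv : u + v ≤ 1)
    (h1 : 192 / (m : ℝ) * (u + v) ≤ u) (h2 : 192 / (m : ℝ) * (u + v) ≤ v) :
    F m (u + v) + 34 / 100 * min u v ≤ F m u + F m v := by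
  have hs : 0 < u + v := by linarith
  have a1 := scale_part hm hu hs huv (by linarith)
  have a2 := scale_part hm hv hs huv (by linarith)
  have e : u / (u + v) * F m (u + v) + v / (u + v) * F m (u + v) = F m (u + v) := by
    rw [← add_mul, ← add_div, div_self hs.ne', one_mul]
  rcases le_total u v with h | h
  · rw [min_eq_left h]
    have g := gain hu hv h
    linarith
  · rw [min_eq_right h]
    have g := gain hv hu h
    rw [add_comm v u] at g
    linarith

/-- The comparison function. -/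
private noncomputable def KS (m : ℕ) (v z : ℝ) : ℝ :=
  if z ≤ 384 * v / m then max (F m z) (F m (z + v) - F m v + z / 1200) else F m z

private theorem F_le_KS (m : ℕ) (v z : ℝ) : F m z ≤ KS m v z := by
  unfold KS
  split_ifs
  · exact le_max_left _ _
  · exact le_refl _

private theorem W_le_KS (m : ℕ) {v z : ℝ} (hz : z ≤ 384 * v / m) :
    F m (z + v) - F m v + z / 1200 ≤ KS m v z := by
  unfold KS
  rw [if_pos hz]
  exact le_max_right _ _

/-- The value of a term of a tuple. -/
private theorem term_le {m : ℕ} (hm : 1000000 ≤ m) {v z : ℝ} (hv : 0 < v) (hv1 : v ≤ 1 / 400)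
    (hz1 : z ≤ 384 * v) : F m (z + v) - F m v + z / 1200 ≤ KS m v z := by
  have hmR : (1000000 : ℝ) ≤ m := by exact_mod_cast hm
  have hm0 : (0 : ℝ) < m := by linarith
  by_cases hz : z ≤ 384 * v / m
  · exact W_le_KS m hz
  · have hz' := not_le.1 hz
    have hu0 : 0 < 384 * v / m := by positivity
    have hzpos : 0 < z := hu0.trans hz'
    have h192 : 192 / (m : ℝ) ≤ 1 / 2 := by
      rw [div_le_iff₀ hm0]
      linarith
    have h192' : 192 / (m : ℝ) ≤ 1 / 385 := by
      rw [div_le_iff₀ hm0]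
      linarith
    have hb1 : 192 / (m : ℝ) * z ≤ 1 / 2 * z := mul_le_mul_of_nonneg_right h192 hzpos.le
    have hb2 : 192 / (m : ℝ) * v = 1 / 2 * (384 * v / m) := by ring
    have h1 : 192 / (m : ℝ) * (z + v) ≤ z := by
      rw [mul_add, hb2]
      linarith
    have h2 : 192 / (m : ℝ) * (z + v) ≤ v := by
      have : 192 / (m : ℝ) * (z + v) ≤ 1 / 385 * (z + v) :=
        mul_le_mul_of_nonneg_right h192' (by linarith)
      linarith
    have h := F_comp (by omega) hzpos hv (by linarith) h1 h2
    have hgain : z / 1200 ≤ 34 / 100 * min z v := by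
      rcases le_total z v with h' | h'
      · rw [min_eq_left h']
        linarith
      · rw [min_eq_right h']
        linarith
    have hF := F_le_KS m v z
    linarith

/-- The tuple inequality for the comparison function. -/
private theorem KS_tuple {m : ℕ} (hm : 1000000 ≤ m) {v : ℝ} (hv : 0 < v) (hv1 : v ≤ 1 / 400)
    (x : Fin m → ℝ) (lo hi : ℝ) (hlo : 0 ≤ lo) (hhi : hi ≤ 1) (hx : ∀ i, lo ≤ x i ∧ x i ≤ hi) :
    KS m v ((∑ i, x i) / m) ≤ (∑ i, KS m v (x i)) / m + (hi - lo) := by
  have hm2 : 2 ≤ m := by omega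
  have hmR : (1000000 : ℝ) ≤ m := by exact_mod_cast hm
  have hm0 : (0 : ℝ) < m := by linarith
  have hFK : (∑ i, F m (x i)) / m ≤ (∑ i, KS m v (x i)) / m :=
    div_le_div_of_nonneg_right (Finset.sum_le_sum fun i _ => F_le_KS m v (x i)) hm0.le
  have hA : F m ((∑ i, x i) / m) ≤ (∑ i, KS m v (x i)) / m + (hi - lo) :=
    (F_tuple hm2 x hlo hhi hx).trans (by linarith)
  by_cases hz : (∑ i, x i) / m ≤ 384 * v / m
  swap
  · have : KS m v ((∑ i, x i) / m) = F m ((∑ i, x i) / m) := if_neg hz
    rw [this]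
    exact hA
  have hKz : KS m v ((∑ i, x i) / m) = max (F m ((∑ i, x i) / m))
      (F m ((∑ i, x i) / m + v) - F m v + (∑ i, x i) / m / 1200) := if_pos hz
  rw [hKz]
  refine max_le hA ?_
  have hsum : ∑ i, x i ≤ 384 * v := by
    rw [div_le_div_iff_of_pos_right hm0] at hz
    exact hz
  have hxi : ∀ i, x i ≤ 384 * v := fun i =>
    (Finset.single_le_sum (f := x) (fun j _ => hlo.trans (hx j).1) (Finset.mem_univ i)).trans hsum
  have ht := F_tuple hm2 (fun i => x i + v) (lo := lo + v) (hi := min hi (384 * v) + v)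
    (by linarith) (by
      have : min hi (384 * v) ≤ 384 * v := min_le_right _ _
      linarith)
    (fun i => ⟨by linarith [(hx i).1], by linarith [le_min (hx i).2 (hxi i)]⟩)
  have e1 : (∑ i, (x i + v)) / m = (∑ i, x i) / m + v := by
    rw [Finset.sum_add_distrib, add_div]
    simp only [Finset.sum_const, Finset.card_univ, Fintype.card_fin, nsmul_eq_mul]
    rw [mul_div_cancel_left₀ v hm0.ne']
  rw [e1] at ht
  have e2 : (∑ i, (F m (x i + v) - F m v + x i / 1200)) / m =
      (∑ i, F m (x i + v)) / m - F m v + (∑ i, x i) / m / 1200 := by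
    rw [Finset.sum_add_distrib, Finset.sum_sub_distrib, ← Finset.sum_div, add_div, sub_div]
    simp only [Finset.sum_const, Finset.card_univ, Fintype.card_fin, nsmul_eq_mul]
    rw [mul_div_cancel_left₀ (F m v) hm0.ne']
    ring
  have e3 : (∑ i, (F m (x i + v) - F m v + x i / 1200)) / m ≤ (∑ i, KS m v (x i)) / m :=
    div_le_div_of_nonneg_right (Finset.sum_le_sum fun i _ => term_le hm hv hv1 (hxi i)) hm0.le
  have e4 : min hi (384 * v) ≤ hi := min_le_left _ _
  rw [e2] at e3
  linarith

theorem F_strict {m : ℕ} (hm : 1000000 ≤ m) {u v : ℝ} (hu : 0 ≤ u) (hv : 0 < v) (hv1 : v ≤ 1 / 400)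
    (huv : u ≤ 384 * v / m) : F m (u + v) + u / 1200 ≤ F m u + F m v := by
  have hm2 : 2 ≤ m := by omega
  have hmR : (1000000 : ℝ) ≤ m := by exact_mod_cast hm
  have hm0 : (0 : ℝ) < m := by linarith
  have hu0 : 384 * v / m ≤ 1 / 400 := by
    rw [div_le_iff₀ hm0]
    linarith
  have hsup : ∀ z : ℝ, 0 ≤ z → z ≤ 1 → F m z ≤ 2 := by
    intro z h0 h1
    refine (F_le_sup hm2 h0 h1).trans ?_
    rw [div_le_iff₀ (by linarith)]
    linarith
  have hFv : 0 ≤ F m v := F_nonneg hm2 hv.le (by linarith)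
  have key : KS m v u ≤ F m u := by
    apply le_F_of hm2 (f := KS m v)
    · unfold KS
      rw [if_pos (by positivity), F_zero hm2, zero_add]
      simp
    · unfold KS
      rw [if_neg (not_le.2 (by linarith)), F_one hm2]
    · refine ⟨3, fun z h0 h1 => ?_⟩
      unfold KS
      split_ifs with hz
      · apply max_le
        · linarith [hsup z h0 h1]
        · have h2 := hsup (z + v) (by linarith) (by linarith)
          linarith
      · linarith [hsup z h0 h1]
    · exact fun y lo hi hlo hhi hy => KS_tuple hm hv hv1 y lo hi hlo hhi hy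
    · exact hu
    · linarith
  have h2 := W_le_KS m huv
  linarith

end Pool.Agent.H86.FM
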